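import Mathlib

set_option autoImplicit false

/-! Descent in an increasing family of graphs with large second neighbourhoods. -/

namespace Pool.Agent.Q107.GR

open Finset

lemma hom_edist {V W : Type} {G : SimpleGraph V} {G' : SimpleGraph W} (f : V → W)
    (hf : ∀ x y, G.Adj x y → G'.Adj (f x) (f y)) (u v : V) : G'.edist (f u) (f v) ≤ G.edist u v := by
  by_cases h : G.Reachable u v
  · obtain ⟨p, hp⟩ := h.exists_walk_length_eq_edist
    rw [← hp]
    have := (p.map (⟨f, fun {a b} h => hf a b h⟩ : G →g G')).edist_le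
    rwa [SimpleGraph.Walk.length_map] at this
  · rw [SimpleGraph.edist_eq_top_of_not_reachable h]
    exact le_top

lemma tri {V : Type} {G : SimpleGraph V} {u v w : V} {a b : ℕ} (h1 : G.edist u v ≤ a) (h2 : G.edist v w ≤ b) :
    G.edist u w ≤ ((a + b : ℕ) : ℕ∞) := by
  push_cast
  exact SimpleGraph.edist_triangle.trans (add_le_add h1 h2)

lemma mono_edist {V : Type} {G G' : SimpleGraph V} (h : G ≤ G') {u v : V} {a : ℕ∞} (h1 : G.edist u v ≤ a) :
    G'.edist u v ≤ a := (SimpleGraph.edist_anti h).trans h1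

lemma reach_of {V : Type} {G : SimpleGraph V} {u v : V} {a : ℕ} (h1 : G.edist u v ≤ a) : G.Reachable u v := by
  apply SimpleGraph.reachable_of_edist_ne_top
  intro h
  rw [h] at h1
  exact absurd h1 (by simp)

open Classical in
/-- the points of `[1, n]` at distance at most two -/
noncomputable def B2 (G : SimpleGraph ℕ) (n x : ℕ) : Finset ℕ := (Icc 1 n).filter (fun y => G.edist x y ≤ 2)

/-- the second neighbourhoods are large and the exceptional sets small -/
structure Big (H : ℕ → SimpleGraph ℕ) (q N : ℕ) (E : ℕ → Finset ℕ) : Prop where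
  mono : ∀ m n, m ≤ n → H m ≤ H n
  q1 : 2 ≤ q
  N1 : 3 * q ≤ N
  small : ∀ n, N ≤ n → (E n).card * (4 * q) ≤ n
  big : ∀ n, N ≤ n → ∀ x ∈ Icc 1 n, x ∉ E n → 4 * n ≤ q * (B2 (H n) n x).card

variable {H : ℕ → SimpleGraph ℕ} {q N : ℕ} {E : ℕ → Finset ℕ}

lemma step (hB : Big H q N E) (m n x : ℕ) (hm : N ≤ m) (hmn : m ≤ n) (hd : n ≤ m + n / q)
    (hx : 4 * n ≤ q * (B2 (H n) n x).card) : ∃ z ∈ Icc 1 m, z ∉ E m ∧ (H n).edist x z ≤ 2 := by
  classical
  by_contra hcon
  push Not at hcon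
  have hs : B2 (H n) n x ⊆ Ioc m n ∪ E m := by
    intro y hy
    unfold B2 at hy
    rw [mem_filter, mem_Icc] at hy
    rw [mem_union, mem_Ioc]
    by_cases h : y ≤ m
    · right
      by_contra hE
      exact absurd hy.2 (not_le.2 (hcon y (mem_Icc.2 ⟨hy.1.1, h⟩) hE))
    · left
      omega
  have h1 := (card_le_card hs).trans (card_union_le _ _)
  rw [Nat.card_Ioc] at h1
  have h2 := hB.small m hm
  have h3 := hB.q1
  have h4 := hB.N1
  have h5 : q * (n / q) ≤ n := Nat.mul_div_le n q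
  have h6 : q * (B2 (H n) n x).card ≤ q * ((n - m) + (E m).card) := Nat.mul_le_mul_left _ h1
  have h7 : q * (n - m) ≤ q * (n / q) := Nat.mul_le_mul_left _ (by omega)
  have h8 : q * (E m).card ≤ m := by nlinarith
  rw [Nat.mul_add] at h6
  omega

/-- descent from `n` to `m` -/
lemma desc (hB : Big H q N E) : ∀ n m : ℕ, N ≤ m → m ≤ n → ∀ x ∈ Icc 1 n, x ∉ E n → ∃ z ∈ Icc 1 m, z ∉ E m ∧
    ∃ k : ℕ, (H n).edist x z ≤ k ∧ (k : ℝ) ≤ 4 * q * Real.log n := by
  intro n
  induction n using Nat.strong_induction_on with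
  | _ n ih =>
    intro m hm hmn x hx hxE
    have hq1 := hB.q1
    have hN1 := hB.N1
    have hq0 : (1 : ℝ) ≤ q := by exact_mod_cast (by omega : 1 ≤ q)
    have hn3 : (3 : ℝ) ≤ n := by exact_mod_cast (by omega : 3 ≤ n)
    have hlog1 : 1 / 2 ≤ Real.log n := by
      have h1 : Real.log 2 ≤ Real.log n := Real.log_le_log (by norm_num) (by linarith)
      have := Real.log_two_gt_d9
      linarith
    rcases Nat.eq_or_lt_of_le hmn with h | h
    · subst h
      refine ⟨x, hx, hxE, 0, by rw [SimpleGraph.edist_self]; simp, ?_⟩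
      push_cast
      positivity
    · have hbig := hB.big n (by omega) x hx hxE
      have hdq : 1 ≤ n / q := (Nat.one_le_div_iff (by omega)).2 (by nlinarith)
      by_cases hc : m ≤ n - n / q
      · obtain ⟨z, hz, hzE, hzd⟩ := step hB (n - n / q) n x (by omega) (by omega) (by omega) hbig
        obtain ⟨w, hw, hwE, k, hk, hkl⟩ := ih (n - n / q) (by omega) m hm hc z hz hzE
        refine ⟨w, hw, hwE, 2 + k, tri (by exact_mod_cast hzd) (mono_edist (hB.mono _ _ (by omega)) hk), ?_⟩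
        -- the gain in the logarithm
        have h1 : ((n - n / q : ℕ) : ℝ) ≤ n * (1 - 1 / (2 * q)) := by
          have h2 : n < q * (n / q) + q := by
            have := Nat.lt_mul_div_succ n (by omega : 0 < q)
            rw [Nat.mul_add, Nat.mul_one] at this
            exact this
          have h3 : n / q ≤ n := Nat.div_le_self _ _
          have h2' : (n : ℝ) < q * ((n / q : ℕ) : ℝ) + q := by exact_mod_cast h2
          rw [Nat.cast_sub h3]
          have h4 : (3 : ℝ) * q ≤ n := by exact_mod_cast (by omega : 3 * q ≤ n)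
          have h5 : (n : ℝ) / (2 * q) ≤ ((n / q : ℕ) : ℝ) := by
            rw [div_le_iff₀ (by positivity)]
            nlinarith
          have h6 : (n : ℝ) * (1 - 1 / (2 * q)) = n - n / (2 * q) := by
            field_simp
          rw [h6]
          linarith
        have h0 : (0 : ℝ) < ((n - n / q : ℕ) : ℝ) := by exact_mod_cast (by omega : 0 < n - n / q)
        have hpos : 0 < 1 - 1 / (2 * (q : ℝ)) := by
          rw [sub_pos, div_lt_one (by positivity)]
          linarith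
        have h2 : Real.log ((n - n / q : ℕ) : ℝ) ≤ Real.log n - 1 / (2 * q) := by
          have h3 := Real.log_le_log h0 h1
          rw [Real.log_mul (by positivity) (ne_of_gt hpos)] at h3
          have h4 := Real.log_le_sub_one_of_pos hpos
          linarith
        have h3 : 4 * (q : ℝ) * Real.log ((n - n / q : ℕ) : ℝ) ≤ 4 * q * (Real.log n - 1 / (2 * q)) :=
          mul_le_mul_of_nonneg_left h2 (by positivity)
        have h4 : 4 * (q : ℝ) * (Real.log n - 1 / (2 * q)) = 4 * q * Real.log n - 2 := by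
          field_simp
          ring
        push_cast
        linarith
      · obtain ⟨z, hz, hzE, hzd⟩ := step hB m n x hm (by omega) (by omega) hbig
        refine ⟨z, hz, hzE, 2, by exact_mod_cast hzd, ?_⟩
        push_cast
        nlinarith

/-- The classes: a finite set of roots. -/
theorem rooted (hB : Big H q N E) : ∃ F : Finset ℕ, F.Nonempty ∧ F ⊆ Icc 1 N ∧
    (∀ n, ∀ u ∈ F, ∀ v ∈ F, u ≠ v → ¬ (H n).Reachable u v) ∧ ∃ C : ℝ, ∃ N' : ℕ, ∀ n, N' ≤ n →
      (∀ u ∈ F, ∃ x ∈ Icc 1 n, (H n).Reachable u x ∧ 4 * n ≤ q * (B2 (H n) n x).card) ∧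
      ∀ x, 4 * n ≤ q * (B2 (H n) n x).card → ∃ u ∈ F, ∃ k : ℕ, (H n).edist x u ≤ k ∧ (k : ℝ) ≤ C * Real.log n := by
  classical
  have hq1 := hB.q1
  have hN1 := hB.N1
  -- the relation
  have tr : ∀ {x y z : ℕ}, (∃ n, (H n).Reachable x y) → (∃ n, (H n).Reachable y z) → ∃ n, (H n).Reachable x z := by
    rintro x y z ⟨n, hn⟩ ⟨m, hm⟩
    exact ⟨max n m, (hn.mono (hB.mono _ _ (le_max_left _ _))).trans (hm.mono (hB.mono _ _ (le_max_right _ _)))⟩
  -- the decreasing sets
  obtain ⟨P, memP⟩ : ∃ P : ℕ → Finset ℕ, ∀ n z, z ∈ P n ↔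
      (z ∈ Icc 1 N \ E N ∧ ∃ x ∈ Icc 1 n, x ∉ E n ∧ ∃ m, (H m).Reachable x z) := by
    refine ⟨fun n => (Icc 1 N \ E N).filter (fun z => ∃ x ∈ Icc 1 n, x ∉ E n ∧ ∃ m, (H m).Reachable x z), fun n z => ?_⟩
    simp only [mem_filter]
  have hPne : ∀ n, N ≤ n → (P n).Nonempty := by
    intro n hn
    have h1 : ∃ x ∈ Icc 1 n, x ∉ E n := by
      by_contra hcon
      push Not at hcon
      have h2 := card_le_card (fun x hx => hcon x hx : Icc 1 n ⊆ E n)
      rw [Nat.card_Icc, Nat.add_sub_cancel] at h2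
      have h3 := hB.small n hn
      nlinarith
    obtain ⟨x, hx, hxE⟩ := h1
    obtain ⟨z, hz, hzE, k, hk, _⟩ := desc hB n N le_rfl hn x hx hxE
    exact ⟨z, (memP n z).2 ⟨mem_sdiff.2 ⟨hz, hzE⟩, x, hx, hxE, n, reach_of hk⟩⟩
  have hPanti : ∀ m n, N ≤ m → m ≤ n → P n ⊆ P m := by
    intro m n hm hmn z hz
    rw [memP] at hz ⊢
    obtain ⟨hz1, x, hx, hxE, hxz⟩ := hz
    obtain ⟨y, hy, hyE, k, hk, _⟩ := desc hB n m hm hmn x hx hxE
    exact ⟨hz1, y, hy, hyE, tr ⟨n, (reach_of hk).symm⟩ hxz⟩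
  -- it is eventually constant
  obtain ⟨n1, hn1, hmin⟩ : ∃ n1, N ≤ n1 ∧ ∀ n, N ≤ n → (P n1).card ≤ (P n).card := by
    have hw : ∃ k, ∃ n, N ≤ n ∧ (P n).card = k := ⟨_, N, le_rfl, rfl⟩
    obtain ⟨n1, h1, h2⟩ := Nat.find_spec hw
    refine ⟨n1, h1, fun n hn => ?_⟩
    rw [h2]
    exact Nat.find_min' hw ⟨n, hn, rfl⟩
  have hconst : ∀ n, n1 ≤ n → P n = P n1 := by
    intro n hn
    exact eq_of_subset_of_card_le (hPanti n1 n hn1 hn) (hmin n (hn1.trans hn))
  -- representatives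
  obtain ⟨F, hF, hF1, hF2⟩ : ∃ F ⊆ P n1, (∀ u ∈ F, ∀ v ∈ F, u ≠ v → ¬ ∃ n, (H n).Reachable u v) ∧
      ∀ z ∈ P n1, ∃ u ∈ F, ∃ n, (H n).Reachable z u := by
    obtain ⟨F, hF, hmax⟩ := exists_max_image ((P n1).powerset.filter
      (fun F : Finset ℕ => ∀ u ∈ F, ∀ v ∈ F, u ≠ v → ¬ ∃ n, (H n).Reachable u v)) (fun F : Finset ℕ => F.card) ⟨∅, by simp⟩
    rw [mem_filter, mem_powerset] at hF
    refine ⟨F, hF.1, hF.2, ?_⟩
    intro z hz
    by_contra hcon
    push Not at hcon
    have hzF : z ∉ F := fun h => hcon z h 0 (SimpleGraph.Reachable.refl _)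
    have h3 : insert z F ∈ (P n1).powerset.filter
        (fun F : Finset ℕ => ∀ u ∈ F, ∀ v ∈ F, u ≠ v → ¬ ∃ n, (H n).Reachable u v) := by
      rw [mem_filter, mem_powerset]
      refine ⟨insert_subset hz hF.1, ?_⟩
      intro u hu v hv huv
      rw [mem_insert] at hu hv
      rcases hu with rfl | hu
      · rcases hv with rfl | hv
        · exact absurd rfl huv
        · rintro ⟨n, hn⟩
          exact hcon v hv n hn
      · rcases hv with rfl | hv
        · rintro ⟨n, hn⟩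
          exact hcon u hu n hn.symm
        · exact hF.2 u hu v hv huv
    have h4 := hmax _ h3
    rw [card_insert_of_notMem hzF] at h4
    omega
  -- uniform bounds on the finite set
  obtain ⟨n2, D1, hD⟩ : ∃ n2 D1 : ℕ, ∀ z ∈ P n1, ∃ u ∈ F, (H n2).edist z u ≤ D1 := by
    choose! uu huu mm hmm using hF2
    have hd : ∀ z ∈ P n1, ∃ d : ℕ, (H (mm z)).edist z (uu z) ≤ d := by
      intro z hz
      obtain ⟨p, hp⟩ := (hmm z hz).exists_walk_length_eq_edist
      exact ⟨p.length, hp.symm.le⟩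
    choose! dd hdd using hd
    refine ⟨(P n1).sup mm, (P n1).sup dd, fun z hz => ⟨uu z, huu z hz, ?_⟩⟩
    refine mono_edist (hB.mono _ _ (le_sup (f := mm) hz)) ((hdd z hz).trans ?_)
    exact_mod_cast le_sup (f := dd) hz
  have hFne : F.Nonempty := by
    obtain ⟨z, hz⟩ := hPne n1 hn1
    obtain ⟨u, hu, _⟩ := hF2 z hz
    exact ⟨u, hu⟩
  have hFN : F ⊆ Icc 1 N := fun u hu => (mem_sdiff.1 ((memP n1 u).1 (hF hu)).1).1
  -- every good point descends
  have key : ∀ n, 2 * n1 + n2 + 3 ≤ n → ∀ x, 4 * n ≤ q * (B2 (H n) n x).card →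
      ∃ u ∈ F, ∃ k : ℕ, (H n).edist x u ≤ k ∧ (k : ℝ) ≤ 2 + 4 * q * Real.log n + D1 := by
    intro n hn x hx
    have hdq : n / q ≤ n / 2 := Nat.div_le_div_left hq1 (by norm_num)
    have hdn : n / q ≤ n := Nat.div_le_self _ _
    obtain ⟨z, hz, hzE, hzd⟩ := step hB (n - n / q) n x (by omega) (Nat.sub_le _ _) (Nat.sub_add_cancel hdn).ge hx
    obtain ⟨w, hw, hwE, k, hk, hkl⟩ := desc hB (n - n / q) N le_rfl (by omega) z hz hzE
    have hwP : w ∈ P n1 := by
      rw [← hconst (n - n / q) (by omega), memP]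
      exact ⟨mem_sdiff.2 ⟨hw, hwE⟩, z, hz, hzE, n - n / q, reach_of hk⟩
    obtain ⟨u, hu, hd⟩ := hD w hwP
    refine ⟨u, hu, 2 + k + D1, tri (tri (by exact_mod_cast hzd) (mono_edist (hB.mono _ _ (Nat.sub_le _ _)) hk))
      (mono_edist (hB.mono _ _ (by omega)) hd), ?_⟩
    have h0 : (0 : ℝ) < ((n - n / q : ℕ) : ℝ) := by exact_mod_cast (by omega : 0 < n - n / q)
    have h1 : Real.log ((n - n / q : ℕ) : ℝ) ≤ Real.log n :=
      Real.log_le_log h0 (by exact_mod_cast Nat.sub_le _ _)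
    have h2 : 4 * (q : ℝ) * Real.log ((n - n / q : ℕ) : ℝ) ≤ 4 * q * Real.log n :=
      mul_le_mul_of_nonneg_left h1 (by positivity)
    push_cast
    linarith
  refine ⟨F, hFne, hFN, fun n u hu v hv huv h => hF1 u hu v hv huv ⟨n, h⟩, 4 * q + 2 * (2 + D1),
    2 * n1 + n2 + 3, fun n hn => ⟨?_, ?_⟩⟩
  · intro u hu
    have huP : u ∈ P n := by rw [hconst n (by omega)]; exact hF hu
    obtain ⟨_, x, hx, hxE, m, hm⟩ := (memP n u).1 huP
    have hbig := hB.big n (by omega) x hx hxE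
    obtain ⟨v, hv, k, hk, _⟩ := key n hn x hbig
    have huv : u = v := by
      by_contra hne
      exact hF1 u hu v hv hne (tr ⟨m, hm.symm⟩ ⟨n, reach_of hk⟩)
    subst huv
    exact ⟨x, hx, (reach_of hk).symm, hbig⟩
  · intro x hx
    obtain ⟨u, hu, k, hk, hkl⟩ := key n hn x hx
    refine ⟨u, hu, k, hk, hkl.trans ?_⟩
    have hlog1 : 1 / 2 ≤ Real.log n := by
      have h1 : Real.log 2 ≤ Real.log n := Real.log_le_log (by norm_num) (by exact_mod_cast (by omega : 2 ≤ n))
      have := Real.log_two_gt_d9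
      linarith
    have hD0 : (0 : ℝ) ≤ D1 := Nat.cast_nonneg _
    nlinarith

end Pool.Agent.Q107.GR
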