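import Pool.Agent.Q107.GR.Tw
import Pool.Agent.H386R2.HL.E

set_option autoImplicit false

/-! Common neighbours `u` of two dense sets such that many odd numbers `r` realise the edges at `u`. -/

namespace Pool.Agent.Q107.GR

open Finset
open Pool.Agent.H373R2.T7 (ev_L' ev_log')

/-- the `y ∈ Y` with `x + y` an odd prime -/
def ee (x : ℕ) (Y : Finset ℕ) : Finset ℕ := Y.filter (fun y => (x + y).Prime ∧ x + y ≠ 2)

/-- the `j` such that for some `y ∈ Y` the number `x + y` is a prime and `|x - y| = 2 j + 1` -/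
def JJ (n x : ℕ) (Y : Finset ℕ) : Finset ℕ :=
  (range n).filter (fun j => ∃ y ∈ Y, (x + y).Prime ∧ Nat.dist x y = 2 * j + 1)

lemma odd_dist {x y : ℕ} (h : (x + y).Prime) (h2 : x + y ≠ 2) : Nat.dist x y % 2 = 1 := by
  have h3 : (x + y) % 2 = 1 := h.eq_two_or_odd.resolve_left h2
  unfold Nat.dist
  omega

lemma ee_le (n x : ℕ) (Y : Finset ℕ) (hx : x ≤ n) (hY : Y ⊆ Icc 1 n) :
    (ee x Y).card ≤ 2 * (JJ n x Y).card := by
  classical
  apply card_le_mul_card_image_of_maps_to (f := fun y => (Nat.dist x y - 1) / 2)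
  · intro y hy
    unfold ee at hy
    rw [mem_filter] at hy
    have h1 := mem_Icc.1 (hY hy.1)
    have h2 := odd_dist hy.2.1 hy.2.2
    have h3 : Nat.dist x y ≤ n := by unfold Nat.dist; omega
    unfold JJ
    rw [mem_filter, mem_range]
    exact ⟨by omega, y, hy.1, hy.2.1, by omega⟩
  · intro j _
    have hsub : (ee x Y).filter (fun y => (Nat.dist x y - 1) / 2 = j) ⊆ {x + (2 * j + 1), x - (2 * j + 1)} := by
      intro y hy
      rw [mem_filter] at hy
      obtain ⟨hy, hj⟩ := hy
      unfold ee at hy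
      rw [mem_filter] at hy
      have h2 := odd_dist hy.2.1 hy.2.2
      rw [mem_insert, mem_singleton]
      unfold Nat.dist at h2 hj
      omega
    exact (card_le_card hsub).trans card_le_two

lemma pc_eq (k : ℕ) : Nat.primeCounting k = ((range (k + 1)).filter Nat.Prime).card := by
  unfold Nat.primeCounting Nat.primeCounting'
  rw [Nat.count_eq_card_filter_range]

lemma primes_window : ∃ N₀ : ℕ, ∀ n : ℕ, N₀ ≤ n → ∀ x ≤ n,
    1 / 2 * (n / Real.log n) ≤ (((Ioc x (x + n)).filter Nat.Prime).card : ℝ) := by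
  classical
  obtain ⟨x0, h⟩ := Pool.Agent.H386R2.HL.pnt_window (1 / 2) (by norm_num)
  refine ⟨x0, fun n hn x hx => ?_⟩
  have h1 := h n hn x hx
  rw [pc_eq, pc_eq] at h1
  have hu : (range (n + x + 1)).filter Nat.Prime = (range (x + 1)).filter Nat.Prime ∪ (Ioc x (x + n)).filter Nat.Prime := by
    ext p
    simp only [mem_filter, mem_union, mem_range, mem_Ioc]
    constructor
    · rintro ⟨h2, h3⟩
      by_cases h4 : p < x + 1
      · exact Or.inl ⟨h4, h3⟩
      · exact Or.inr ⟨⟨by omega, by omega⟩, h3⟩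
    · rintro (⟨h2, h3⟩ | ⟨⟨h2, h4⟩, h3⟩)
      · exact ⟨by omega, h3⟩
      · exact ⟨by omega, h3⟩
  have hc := card_union_le ((range (x + 1)).filter Nat.Prime) ((Ioc x (x + n)).filter Nat.Prime)
  rw [← hu] at hc
  have hc' : (((range (n + x + 1)).filter Nat.Prime).card : ℝ) ≤
      ((range (x + 1)).filter Nat.Prime).card + ((Ioc x (x + n)).filter Nat.Prime).card := by exact_mod_cast hc
  linarith

lemma primes_upper : ∃ C : ℝ, 0 < C ∧ ∃ N₀ : ℕ, ∀ n : ℕ, N₀ ≤ n →
    (((range (2 * n + 1)).filter Nat.Prime).card : ℝ) ≤ C * (n / Real.log n) := by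
  classical
  have h1 := Helper507.PNT.pi_tendsto
  have h2 := (h1.eventually (Iic_mem_nhds (show (1 : ℝ) < 2 by norm_num)))
  obtain ⟨u₀, hu₀⟩ := Filter.eventually_atTop.1 h2
  obtain ⟨n0, hn0⟩ := exists_nat_ge u₀
  refine ⟨4, by norm_num, n0 + 3, fun n hn => ?_⟩
  have hn' : (n0 : ℝ) ≤ n := by exact_mod_cast (by omega : n0 ≤ n)
  have hn3 : (3 : ℝ) ≤ n := by exact_mod_cast (by omega : 3 ≤ n)
  have h3 := hu₀ ((2 * n : ℕ) : ℝ) (by push_cast; linarith)
  rw [Nat.floor_natCast] at h3
  have hl : 0 < Real.log n := Real.log_pos (by linarith)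
  have hl2 : Real.log n ≤ Real.log ((2 * n : ℕ) : ℝ) := Real.log_le_log (by linarith) (by push_cast; linarith)
  have h5 : (0 : ℝ) < ((2 * n : ℕ) : ℝ) := by push_cast; linarith
  rw [div_le_iff₀ h5] at h3
  rw [← pc_eq, mul_div_assoc', le_div_iff₀ hl]
  have h6 : (Nat.primeCounting (2 * n) : ℝ) * Real.log n ≤ (Nat.primeCounting (2 * n) : ℝ) * Real.log ((2 * n : ℕ) : ℝ) :=
    mul_le_mul_of_nonneg_left hl2 (Nat.cast_nonneg _)
  push_cast at h3 h6 ⊢
  linarith

/-- the common `u` -/
def cu (n x z : ℕ) : Finset ℕ :=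
  (Icc 1 n).filter (fun u => ((u + x).Prime ∧ u + x ≠ 2) ∧ ((u + z).Prime ∧ u + z ≠ 2))

lemma cu_symm (n x z : ℕ) : cu n x z = cu n z x := by
  unfold cu
  apply filter_congr
  intro u _
  tauto

lemma sum_ee (n : ℕ) (X Z : Finset ℕ) :
    ∑ u ∈ Icc 1 n, (ee u X).card * (ee u Z).card = ∑ x ∈ X, ∑ z ∈ Z, (cu n x z).card := by
  classical
  unfold ee cu
  simp only [card_filter]
  simp_rw [sum_mul_sum]
  rw [sum_comm]
  apply sum_congr rfl
  intro x _
  rw [sum_comm]
  apply sum_congr rfl
  intro z _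
  apply sum_congr rfl
  intro u _
  by_cases h1 : (u + x).Prime ∧ u + x ≠ 2 <;> by_cases h2 : (u + z).Prime ∧ u + z ≠ 2 <;> simp [h1, h2]

lemma prs_le_cu (n x m : ℕ) (hx : x ≤ n) (hm : 1 ≤ m) : (prs x (x + n) m).card ≤ (cu n x (x + 2 * m)).card := by
  classical
  apply card_le_card_of_injOn (fun p => p - x)
  · intro p hp
    rw [mem_coe] at hp ⊢
    unfold prs at hp
    rw [mem_filter, mem_Ioc] at hp
    obtain ⟨⟨h1, h2⟩, h3, h4⟩ := hp
    have hp2 : p ≠ 2 := by
      rintro rfl
      rcases h4.eq_two_or_odd with h | h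
      · omega
      · omega
    unfold cu
    rw [mem_filter, mem_Icc]
    simp only
    have e1 : p - x + x = p := by omega
    have e2 : p - x + (x + 2 * m) = p + 2 * m := by omega
    rw [e1, e2]
    have := h3.two_le
    exact ⟨⟨by omega, by omega⟩, ⟨h3, hp2⟩, h4, by omega⟩
  · intro p hp q hq h
    rw [mem_coe] at hp hq
    unfold prs at hp hq
    rw [mem_filter, mem_Ioc] at hp hq
    simp only at h
    omega

lemma exists_u (n : ℕ) (hn : 1 ≤ n) (a P : ℝ) (ha : 0 ≤ a) (hP : 0 < P) (E X Z : Finset ℕ)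
    (hE : ∀ m ∈ Icc 1 n, m ∉ E → ∀ x ≤ n, a ≤ (prs x (x + n) m).card)
    (hPr : (((range (2 * n + 1)).filter Nat.Prime).card : ℝ) ≤ P)
    (hX : X ⊆ Icc 1 n) (hZ : Z ⊆ Icc 1 n) (hpar : ∀ x ∈ X, ∀ z ∈ Z, x % 2 = z % 2)
    (hbig : 2 * (1 + 2 * E.card) ≤ Z.card) :
    ∃ u ∈ Icc 1 n, (X.card : ℝ) * Z.card * a / (2 * n * P) ≤ (ee u X).card ∧
      (X.card : ℝ) * Z.card * a / (2 * n * P) ≤ (ee u Z).card := by
  classical
  have hn0 : (0 : ℝ) < n := by exact_mod_cast (by omega : 0 < n)
  -- the upper bound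
  have up : ∀ u ∈ Icc 1 n, ∀ Y ⊆ Icc 1 n, ((ee u Y).card : ℝ) ≤ P := by
    intro u hu Y hY
    refine le_trans ?_ hPr
    have : (ee u Y).card ≤ ((range (2 * n + 1)).filter Nat.Prime).card := by
      apply card_le_card_of_injOn (fun y => u + y)
      · intro y hy
        rw [mem_coe] at hy ⊢
        unfold ee at hy
        rw [mem_filter] at hy
        have h1 := mem_Icc.1 (hY hy.1)
        rw [mem_Icc] at hu
        rw [mem_filter, mem_range]
        simp only
        exact ⟨by omega, hy.2.1⟩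
      · intro y _ z _ h
        simp only at h
        omega
    exact_mod_cast this
  -- the lower bound for the sum
  have low : ∀ x ∈ X, (Z.card : ℝ) / 2 * a ≤ ∑ z ∈ Z, ((cu n x z).card : ℝ) := by
    intro x hx
    have hx1 := mem_Icc.1 (hX hx)
    set G := Z.filter (fun z => z ≠ x ∧ Nat.dist x z / 2 ∉ E) with hG
    have hGc : Z.card ≤ G.card + (1 + 2 * E.card) := by
      have hs : Z ⊆ G ∪ ({x} ∪ (E.image (fun m => x + 2 * m) ∪ E.image (fun m => x - 2 * m))) := by
        intro z hz
        rw [mem_union]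
        by_cases h : z ∈ G
        · exact Or.inl h
        · right
          rw [hG, mem_filter, not_and, not_and_or, not_not, not_not] at h
          rcases h hz with h | h
          · rw [mem_union, mem_singleton]; exact Or.inl h
          · rw [mem_union, mem_union]
            right
            have hp := hpar x hx z hz
            by_cases hxz : x ≤ z
            · left
              rw [mem_image]
              refine ⟨_, h, ?_⟩
              unfold Nat.dist
              omega
            · right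
              rw [mem_image]
              refine ⟨_, h, ?_⟩
              unfold Nat.dist
              omega
      have h1 := card_le_card hs
      have h2 := card_union_le G ({x} ∪ (E.image (fun m => x + 2 * m) ∪ E.image (fun m => x - 2 * m)))
      have h3 := card_union_le ({x} : Finset ℕ) (E.image (fun m => x + 2 * m) ∪ E.image (fun m => x - 2 * m))
      have h4 := card_union_le (E.image (fun m => x + 2 * m)) (E.image (fun m => x - 2 * m))
      have h5 : (E.image (fun m => x + 2 * m)).card ≤ E.card := card_image_le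
      have h6 : (E.image (fun m => x - 2 * m)).card ≤ E.card := card_image_le
      rw [card_singleton] at h3
      omega
    have hG2 : (Z.card : ℝ) / 2 ≤ G.card := by
      have : Z.card ≤ 2 * G.card := by omega
      have h : (Z.card : ℝ) ≤ 2 * G.card := by exact_mod_cast this
      linarith
    calc (Z.card : ℝ) / 2 * a ≤ G.card * a := mul_le_mul_of_nonneg_right hG2 ha
      _ = ∑ z ∈ G, a := by rw [sum_const, nsmul_eq_mul]
      _ ≤ ∑ z ∈ G, ((cu n x z).card : ℝ) := by
          apply sum_le_sum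
          intro z hz
          rw [hG, mem_filter] at hz
          obtain ⟨hz, hne, hzE⟩ := hz
          have hz1 := mem_Icc.1 (hZ hz)
          have hp := hpar x hx z hz
          by_cases hxz : x ≤ z
          · have e : x + 2 * (Nat.dist x z / 2) = z := by unfold Nat.dist; omega
            have hm : 1 ≤ Nat.dist x z / 2 := by unfold Nat.dist; omega
            have h1 := hE (Nat.dist x z / 2) (mem_Icc.2 ⟨hm, by unfold Nat.dist; omega⟩) hzE x hx1.2
            have h2 := prs_le_cu n x (Nat.dist x z / 2) hx1.2 hm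
            rw [e] at h2
            exact h1.trans (by exact_mod_cast h2)
          · have e : z + 2 * (Nat.dist x z / 2) = x := by unfold Nat.dist; omega
            have hm : 1 ≤ Nat.dist x z / 2 := by unfold Nat.dist; omega
            have h1 := hE (Nat.dist x z / 2) (mem_Icc.2 ⟨hm, by unfold Nat.dist; omega⟩) hzE z hz1.2
            have h2 := prs_le_cu n z (Nat.dist x z / 2) hz1.2 hm
            rw [e] at h2
            rw [cu_symm]
            exact h1.trans (by exact_mod_cast h2)
      _ ≤ ∑ z ∈ Z, ((cu n x z).card : ℝ) := by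
          apply sum_le_sum_of_subset_of_nonneg (filter_subset _ _)
          intro _ _ _
          exact Nat.cast_nonneg _
  have low2 : (X.card : ℝ) * (Z.card / 2 * a) ≤ ∑ u ∈ Icc 1 n, ((ee u X).card * (ee u Z).card : ℝ) := by
    have h1 : (∑ u ∈ Icc 1 n, ((ee u X).card * (ee u Z).card : ℝ)) = ∑ x ∈ X, ∑ z ∈ Z, ((cu n x z).card : ℝ) := by
      exact_mod_cast sum_ee n X Z
    rw [h1, ← nsmul_eq_mul, ← sum_const]
    exact sum_le_sum low
  set T : ℝ := X.card * Z.card * a / (2 * n) with hT
  have hex : ∃ u ∈ Icc 1 n, T ≤ (ee u X).card * (ee u Z).card := by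
    by_contra hcon
    push Not at hcon
    have h1 : ∑ u ∈ Icc 1 n, ((ee u X).card * (ee u Z).card : ℝ) < ∑ u ∈ Icc 1 n, T := by
      apply sum_lt_sum_of_nonempty ⟨1, mem_Icc.2 ⟨le_rfl, hn⟩⟩
      intro u hu
      exact hcon u hu
    rw [sum_const, nsmul_eq_mul, Nat.card_Icc, Nat.add_sub_cancel] at h1
    have h2 : (n : ℝ) * T = X.card * (Z.card / 2 * a) := by
      rw [hT]
      field_simp
    linarith
  obtain ⟨u, hu, hu2⟩ := hex
  have e0 : (X.card : ℝ) * Z.card * a / (2 * n * P) = T / P := by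
    rw [hT, div_div]
  refine ⟨u, hu, ?_, ?_⟩
  · rw [e0, div_le_iff₀ hP]
    exact hu2.trans (mul_le_mul_of_nonneg_left (up u hu Z hZ) (Nat.cast_nonneg _))
  · rw [e0, div_le_iff₀ hP, mul_comm]
    exact hu2.trans (mul_le_mul_of_nonneg_right (up u hu X hX) (Nat.cast_nonneg _))

end Pool.Agent.Q107.GR
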