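import Pool.Agent.Q107.GR.Hit
import Pool.Agent.Q107.GR.Abs

set_option autoImplicit false

/-! Boundedly many additional odd numbers link almost all vertices of one scale. -/

namespace Pool.Agent.Q107.GR

open Finset
open Pool.Agent.H373R2.T7 (ev_L' ev_log')
open Pool.Agent.Q143.GG (R N2 Cd good_main prime_outside R_symm cover)

theorem data : ∃ c δ : ℝ, 0 < c ∧ 0 < δ ∧ ∀ A : ℕ, ∃ N₀ : ℕ, ∀ n : ℕ, N₀ ≤ n → ∃ E ⊆ Icc 1 n,
    (E.card : ℝ) ≤ n / Real.log n ^ A ∧ (∀ x ∈ Icc 1 n, x ∉ E → c * n ≤ (N2 n x).card) ∧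
    (∀ x ∈ Icc 1 n, δ * (n / Real.log n) ≤ (JJ n x (Icc 1 n \ E)).card) ∧
    ∀ a ∈ Icc 1 n \ E, ∀ b ∈ Icc 1 n \ E, a % 2 = b % 2 → ∃ u ∈ Icc 1 n,
      δ * (n / Real.log n) ≤ (JJ n u (N2 n a)).card ∧ δ * (n / Real.log n) ≤ (JJ n u (N2 n b)).card := by
  classical
  obtain ⟨c, hc, hgood⟩ := good_main
  obtain ⟨c3, hc3, hpw⟩ := pairs_window
  obtain ⟨C1, hC1, M1, hup⟩ := primes_upper
  obtain ⟨M2, hlow⟩ := primes_window
  refine ⟨c, min (1 / 16) (c ^ 2 * c3 / (4 * C1)), hc, by positivity, fun A => ?_⟩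
  obtain ⟨M3, hg⟩ := hgood (A + 2)
  obtain ⟨M4, hp⟩ := hpw 2
  obtain ⟨M6, h6⟩ := ev_L' (8 + 8 / c)
  obtain ⟨M7, h7⟩ := ev_log' 1 (8 + 4 / c)
  refine ⟨M1 + M2 + M3 + M4 + M6 + M7 + 3, fun n hn => ?_⟩
  have hn0 : (0 : ℝ) < n := by exact_mod_cast (by omega : 0 < n)
  have hn1 : (1 : ℝ) ≤ n := by exact_mod_cast (by omega : 1 ≤ n)
  have hL := h6 n (by omega)
  have hLn := h7 n (by omega)
  rw [pow_one] at hLn
  have hlow' := hlow n (by omega)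
  have hup' := hup n (by omega)
  obtain ⟨E1, hE1, hE1c', hE1p⟩ := hg n (by omega)
  obtain ⟨E2, hE2, hE2c, hE2p⟩ := hp n (by omega)
  set L := Real.log (n : ℝ) with hLd
  have hc8 : 0 < 8 / c := by positivity
  have hc4 : 0 < 4 / c := by positivity
  have hL8 : 8 ≤ L := by linarith
  have hL0 : 0 < L := by linarith
  have hLc : 8 ≤ c * L := by
    have : 8 / c ≤ L := by linarith
    rw [div_le_iff₀ hc] at this
    linarith
  have hsq : √(n : ℝ) ≤ n := by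
    rw [Real.sqrt_le_left hn0.le]
    nlinarith
  have hLn1 : (8 + 4 / c) * L ≤ n := hLn.trans hsq
  have hLn8 : 8 * L ≤ n := by nlinarith
  have hcn : 4 ≤ c * n := by
    have : 4 / c * L ≤ n := by nlinarith
    have h : 4 / c ≤ n := by nlinarith
    rw [div_le_iff₀ hc] at h
    linarith
  have hE1c : (E1.card : ℝ) ≤ n / L ^ 2 := by
    refine hE1c'.trans (div_le_div_of_nonneg_left hn0.le (by positivity) ?_)
    exact pow_le_pow_right₀ (by linarith) (by omega)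
  have hE1A : (E1.card : ℝ) ≤ n / L ^ A := by
    refine hE1c'.trans (div_le_div_of_nonneg_left hn0.le (by positivity) ?_)
    exact pow_le_pow_right₀ (by linarith) (by omega)
  set P : ℝ := C1 * (n / L) with hP
  have hP0 : 0 < P := by positivity
  have hN2s : ∀ b, N2 n b ⊆ Icc 1 n := fun b => filter_subset _ _
  have hE2n : 2 * (1 + 2 * (E2.card : ℝ)) ≤ c * n := by
    have h1 : (n : ℝ) / L ^ 2 ≤ c / 64 * n := by
      rw [div_le_iff₀ (by positivity)]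
      have h3 : 64 ≤ c * L ^ 2 := by nlinarith
      nlinarith
    nlinarith
  have hnL : 0 ≤ (n : ℝ) / L := by positivity
  refine ⟨E1, hE1, hE1A, hE1p, ?_, ?_⟩
  · intro x hx
    refine le_trans (mul_le_mul_of_nonneg_right (min_le_left _ _) hnL) ?_
    exact JJ_big n x L hL8 hLn8 E1 (mem_Icc.1 hx).2 hE1c (hlow' x (mem_Icc.1 hx).2)
  · intro a ha b hb hpar
    obtain ⟨a1, a2⟩ := mem_sdiff.1 ha
    obtain ⟨b1, b2⟩ := mem_sdiff.1 hb
    have hX := hE1p a a1 a2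
    have hZ := hE1p b b1 b2
    have ha1 := (mem_Icc.1 a1).1
    have hb1 := (mem_Icc.1 b1).1
    obtain ⟨u, hu, hu1, hu2⟩ := exists_u n (by omega) (c3 * (n / L ^ 2)) P (by positivity) hP0 E2 (N2 n a) (N2 n b)
      hE2p hup' (hN2s _) (hN2s _) (fun x hx z hz => by
        rw [N2_par ha1 hx, N2_par hb1 hz]; exact hpar) (by
        have : (2 * (1 + 2 * (E2.card : ℝ))) ≤ (N2 n b).card := hE2n.trans hZ
        exact_mod_cast this)
    have hT : c ^ 2 * c3 / (2 * C1) * (n / L) ≤ ((N2 n a).card : ℝ) * (N2 n b).card * (c3 * (n / L ^ 2)) / (2 * n * P) := by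
      rw [le_div_iff₀ (by positivity)]
      have h1 : (c * n) * (c * n) ≤ ((N2 n a).card : ℝ) * (N2 n b).card :=
        mul_le_mul hX hZ (by positivity) (Nat.cast_nonneg _)
      have h2 : (c * n) * (c * n) * (c3 * (n / L ^ 2)) ≤ ((N2 n a).card : ℝ) * (N2 n b).card * (c3 * (n / L ^ 2)) :=
        mul_le_mul_of_nonneg_right h1 (by positivity)
      refine le_trans (le_of_eq ?_) h2
      rw [hP]
      field_simp
    have k1 := ee_le n u (N2 n a) (mem_Icc.1 hu).2 (hN2s _)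
    have k2 := ee_le n u (N2 n b) (mem_Icc.1 hu).2 (hN2s _)
    have k1' : ((ee u (N2 n a)).card : ℝ) ≤ 2 * (JJ n u (N2 n a)).card := by exact_mod_cast k1
    have k2' : ((ee u (N2 n b)).card : ℝ) ≤ 2 * (JJ n u (N2 n b)).card := by exact_mod_cast k2
    have e : c ^ 2 * c3 / (4 * C1) * (n / L) = (c ^ 2 * c3 / (2 * C1) * (n / L)) / 2 := by
      field_simp
      norm_num
    have m1 := mul_le_mul_of_nonneg_right (min_le_right (1 / 16) (c ^ 2 * c3 / (4 * C1))) hnL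
    rw [e] at m1
    exact ⟨u, hu, by linarith, by linarith⟩

lemma big_elt (J : Finset ℕ) (s : ℕ) (h : s < J.card) : ∃ j ∈ J, s ≤ j := by
  by_contra hcon
  push Not at hcon
  have h1 : J ⊆ range s := fun j hj => mem_range.2 (hcon j hj)
  have := card_le_card h1
  rw [card_range] at this
  omega

lemma sq_small (δ : ℝ) (hδ : 0 < δ) : ∃ N₀ : ℕ, ∀ n : ℕ, N₀ ≤ n → ((Nat.sqrt n : ℕ) : ℝ) < δ * (n / Real.log n) := by
  obtain ⟨N1, h1⟩ := ev_log' 1 (2 / δ)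
  refine ⟨N1 + 3, fun n hn => ?_⟩
  have h := h1 n (by omega)
  rw [pow_one] at h
  have hn3 : (3 : ℝ) ≤ n := by exact_mod_cast (by omega : 3 ≤ n)
  have hn0 : (0 : ℝ) < n := by linarith
  have hl : 0 < Real.log n := Real.log_pos (by linarith)
  have hs : ((Nat.sqrt n : ℕ) : ℝ) ≤ √(n : ℝ) := Real.nat_sqrt_le_real_sqrt
  refine lt_of_le_of_lt hs ?_
  have hs0 : 0 < √(n : ℝ) := Real.sqrt_pos.2 hn0
  have hss : √(n : ℝ) * √(n : ℝ) = n := Real.mul_self_sqrt hn0.le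
  rw [mul_div_assoc', lt_div_iff₀ hl]
  have h2 : 2 / δ * Real.log n * δ ≤ √(n : ℝ) * δ := mul_le_mul_of_nonneg_right h hδ.le
  have h3 : 2 / δ * Real.log n * δ = 2 * Real.log n := by
    field_simp
  rw [h3] at h2
  have h4 : √(n : ℝ) * Real.log n < √(n : ℝ) * (√(n : ℝ) * δ) := mul_lt_mul_of_pos_left (by linarith) hs0
  calc √(n : ℝ) * Real.log n < √(n : ℝ) * (√(n : ℝ) * δ) := h4
    _ = δ * n := by rw [← mul_assoc, hss]; ring

/-- one scale -/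
theorem scaleA : ∃ c : ℝ, 0 < c ∧ ∃ K : ℕ, ∀ A : ℕ, ∃ N₀ : ℕ, ∀ n : ℕ, N₀ ≤ n → ∃ E ⊆ Icc 1 n,
    (E.card : ℝ) ≤ n / Real.log n ^ A ∧ (∀ x ∈ Icc 1 n, x ∉ E → c * n ≤ (N2 n x).card) ∧
    ∃ T : Finset ℕ, T.card ≤ K ∧ (∀ t ∈ T, Nat.sqrt n ≤ t) ∧
      ∀ (G : SimpleGraph ℕ), (∀ x ∈ Icc 1 n, ∀ y ∈ Icc 1 n, Ed (T : Set ℕ) x y → G.Adj x y) →
        ∀ x ∈ Icc 1 n \ E, ∀ y ∈ Icc 1 n \ E, G.edist x y ≤ 15 := by
  classical
  obtain ⟨c, δ, hc, hδ, hdata⟩ := data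
  obtain ⟨M1, h1⟩ := sq_small δ hδ
  set K0 := ⌊1 / c⌋₊ with hK0
  refine ⟨c, hc, K0 + 2 * ((K0 + K0) * (K0 + K0)), fun A => ?_⟩
  obtain ⟨M2, h2⟩ := hdata A
  refine ⟨M1 + M2 + 3, fun n hn => ?_⟩
  obtain ⟨E, hE, hEc, hEp, hJ1, hJ2⟩ := h2 n (by omega)
  have hsq := h1 n (by omega)
  have hn0 : (0 : ℝ) < n := by exact_mod_cast (by omega : 0 < n)
  refine ⟨E, hE, hEc, hEp, ?_⟩
  set Gd := Icc 1 n \ E with hGd
  have hN2s : ∀ b, N2 n b ⊆ Icc 1 n := fun b => filter_subset _ _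
  have hm1 : 1 ≤ ⌈c * (n : ℝ)⌉₊ := Nat.ceil_pos.2 (by positivity)
  obtain ⟨T0, hT0, hT0c, hT0p⟩ := cover (Icc 1 n) Gd (N2 n) ⌈c * (n : ℝ)⌉₊ hm1 (by
    intro x hx
    rw [hGd, mem_sdiff] at hx
    exact ⟨hN2s _, Nat.ceil_le.2 (hEp x hx.1 hx.2)⟩)
  have hT0K : T0.card ≤ K0 := by
    apply Nat.le_floor
    rw [le_div_iff₀ hc]
    rw [Nat.card_Icc, Nat.add_sub_cancel] at hT0c
    have h3 : (T0.card : ℝ) * ⌈c * (n : ℝ)⌉₊ ≤ n := by exact_mod_cast hT0c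
    have h4 : (T0.card : ℝ) * (c * n) ≤ n := le_trans (mul_le_mul_of_nonneg_left (Nat.le_ceil _) (Nat.cast_nonneg _)) h3
    have h5 : (T0.card : ℝ) * c * n ≤ 1 * n := by linarith
    exact le_of_mul_le_mul_right h5 hn0
  -- the parity flips
  have flip : ∀ t, t ∈ T0 → ∃ q : ℕ × ℕ, q.1 ∈ Gd ∧ (t + q.1).Prime ∧ Nat.dist t q.1 = 2 * q.2 + 1 ∧ Nat.sqrt n ≤ q.2 := by
    intro t ht
    have hti : t ∈ Icc 1 n := (mem_sdiff.1 (hT0 ht)).1
    obtain ⟨j, hj, hjs⟩ := big_elt (JJ n t Gd) (Nat.sqrt n) (by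
      have := lt_of_lt_of_le hsq (hJ1 t hti)
      exact_mod_cast this)
    unfold JJ at hj
    rw [mem_filter] at hj
    obtain ⟨_, y, hy, hy1, hy2⟩ := hj
    exact ⟨(y, j), hy, hy1, hy2, hjs⟩
  choose! fl hfl using flip
  set T1 := T0 ∪ T0.image (fun t => (fl t).1) with hT1
  have hT1c : T1.card ≤ K0 + K0 := by
    have h3 := card_union_le T0 (T0.image (fun t => (fl t).1))
    have h4 : (T0.image (fun t => (fl t).1)).card ≤ T0.card := card_image_le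
    rw [hT1]
    omega
  have hT1g : ∀ t ∈ T1, t ∈ Gd := by
    intro t ht
    rw [hT1, mem_union, mem_image] at ht
    rcases ht with ht | ⟨s, hs, rfl⟩
    · exact hT0 ht
    · exact (hfl s hs).1
  -- the links
  have link : ∀ p : ℕ × ℕ, p ∈ (T1 ×ˢ T1).filter (fun p => p.1 % 2 = p.2 % 2) → ∃ w : ℕ × ℕ × ℕ × ℕ × ℕ,
      w.1 ∈ Icc 1 n ∧ (w.2.1 ∈ N2 n p.1 ∧ (w.1 + w.2.1).Prime ∧ Nat.dist w.1 w.2.1 = 2 * w.2.2.1 + 1 ∧ Nat.sqrt n ≤ w.2.2.1) ∧
      (w.2.2.2.1 ∈ N2 n p.2 ∧ (w.1 + w.2.2.2.1).Prime ∧ Nat.dist w.1 w.2.2.2.1 = 2 * w.2.2.2.2 + 1 ∧ Nat.sqrt n ≤ w.2.2.2.2) := by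
    intro p hp
    rw [mem_filter, mem_product] at hp
    obtain ⟨u, hu, hu1, hu2⟩ := hJ2 p.1 (hT1g _ hp.1.1) p.2 (hT1g _ hp.1.2) hp.2
    obtain ⟨j, hj, hjs⟩ := big_elt (JJ n u (N2 n p.1)) (Nat.sqrt n) (by
      have := lt_of_lt_of_le hsq hu1
      exact_mod_cast this)
    obtain ⟨i, hi, his⟩ := big_elt (JJ n u (N2 n p.2)) (Nat.sqrt n) (by
      have := lt_of_lt_of_le hsq hu2
      exact_mod_cast this)
    unfold JJ at hj hi
    rw [mem_filter] at hj hi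
    obtain ⟨_, x, hx, hx1, hx2⟩ := hj
    obtain ⟨_, z, hz, hz1, hz2⟩ := hi
    exact ⟨(u, x, j, z, i), hu, ⟨hx, hx1, hx2, hjs⟩, ⟨hz, hz1, hz2, his⟩⟩
  choose! lk hlk using link
  set PP := (T1 ×ˢ T1).filter (fun p => p.1 % 2 = p.2 % 2) with hPP
  have hPPc : PP.card ≤ (K0 + K0) * (K0 + K0) := by
    refine (card_filter_le _ _).trans ?_
    rw [card_product]
    exact Nat.mul_le_mul hT1c hT1c
  refine ⟨T0.image (fun t => (fl t).2) ∪ (PP.image (fun p => (lk p).2.2.1) ∪ PP.image (fun p => (lk p).2.2.2.2)), ?_, ?_, ?_⟩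
  · have h3 := card_union_le (T0.image (fun t => (fl t).2)) (PP.image (fun p => (lk p).2.2.1) ∪ PP.image (fun p => (lk p).2.2.2.2))
    have h4 := card_union_le (PP.image (fun p => (lk p).2.2.1)) (PP.image (fun p => (lk p).2.2.2.2))
    have h5 : (T0.image (fun t => (fl t).2)).card ≤ T0.card := card_image_le
    have h6 : (PP.image (fun p => (lk p).2.2.1)).card ≤ PP.card := card_image_le
    have h7 : (PP.image (fun p => (lk p).2.2.2.2)).card ≤ PP.card := card_image_le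
    omega
  · intro t ht
    rw [mem_union, mem_union, mem_image, mem_image, mem_image] at ht
    rcases ht with ⟨t, ht, rfl⟩ | ⟨p, hp, rfl⟩ | ⟨p, hp, rfl⟩
    · exact (hfl t ht).2.2.2
    · exact (hlk p hp).2.1.2.2.2
    · exact (hlk p hp).2.2.2.2.2
  · intro G hadj x hx y hy
    have two : ∀ b ∈ Icc 1 n, ∀ x ∈ N2 n b, G.edist b x ≤ ((2 : ℕ) : ℕ∞) := by
      intro b hb x hx
      unfold N2 at hx
      rw [mem_filter, card_pos] at hx
      obtain ⟨hx1, y, hy⟩ := hx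
      unfold Cd at hy
      rw [mem_filter] at hy
      have h1 : G.edist b y ≤ ((1 : ℕ) : ℕ∞) := by
        exact_mod_cast (SimpleGraph.edist_eq_one_iff_adj.2 (hadj b hb y hy.1 (Or.inl hy.2.1))).le
      have h2 : G.edist y x ≤ ((1 : ℕ) : ℕ∞) := by
        exact_mod_cast (SimpleGraph.edist_eq_one_iff_adj.2 (hadj y hy.1 x hx1 (Or.inl (R_symm hy.2.2)))).le
      exact tri h1 h2
    have sym : ∀ {a b : ℕ} {k : ℕ}, G.edist a b ≤ (k : ℕ∞) → G.edist b a ≤ (k : ℕ∞) := by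
      intro a b k h
      rwa [SimpleGraph.edist_comm]
    have Gi : ∀ a, a ∈ Gd → a ∈ Icc 1 n := fun a ha => (mem_sdiff.1 ha).1
    have six : ∀ p ∈ PP, G.edist p.1 p.2 ≤ ((6 : ℕ) : ℕ∞) := by
      intro p hp
      obtain ⟨w1, ⟨w2, w3, w4, w5⟩, w6, w7, w8, w9⟩ := hlk p hp
      have hp' := hp
      rw [hPP, mem_filter, mem_product] at hp'
      have t1 := two p.1 (Gi _ (hT1g _ hp'.1.1)) _ w2
      have t2 := two p.2 (Gi _ (hT1g _ hp'.1.2)) _ w6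
      have s1 : G.edist (lk p).1 (lk p).2.1 ≤ ((1 : ℕ) : ℕ∞) := by
        have := hadj _ w1 _ (hN2s _ w2) (Or.inr ⟨w3, (lk p).2.2.1, ?_, w4⟩)
        · exact_mod_cast (SimpleGraph.edist_eq_one_iff_adj.2 this).le
        · rw [mem_coe, mem_union, mem_union, mem_image, mem_image]
          exact Or.inr (Or.inl ⟨p, hp, rfl⟩)
      have s2 : G.edist (lk p).1 (lk p).2.2.2.1 ≤ ((1 : ℕ) : ℕ∞) := by
        have := hadj _ w1 _ (hN2s _ w6) (Or.inr ⟨w7, (lk p).2.2.2.2, ?_, w8⟩)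
        · exact_mod_cast (SimpleGraph.edist_eq_one_iff_adj.2 this).le
        · rw [mem_coe, mem_union, mem_union, mem_image, mem_image, mem_image]
          exact Or.inr (Or.inr ⟨p, hp, rfl⟩)
      exact tri (tri (tri t1 (sym s1)) s2) (sym t2)
    have near : ∀ b ∈ Gd, ∃ t ∈ T0, t % 2 = b % 2 ∧ G.edist b t ≤ ((4 : ℕ) : ℕ∞) := by
      intro b hb
      obtain ⟨t, ht, z, hz⟩ := hT0p b hb
      rw [mem_inter] at hz
      refine ⟨t, ht, ?_, tri (two b (Gi b hb) z hz.1) (sym (two t (Gi t (hT0 ht)) z hz.2))⟩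
      rw [← N2_par (mem_Icc.1 (Gi b hb)).1 hz.1, ← N2_par (mem_Icc.1 (Gi t (hT0 ht))).1 hz.2]
    obtain ⟨t, ht, htp, htd⟩ := near x hx
    obtain ⟨s, hs, hsp, hsd⟩ := near y hy
    have htT1 : t ∈ T1 := mem_union_left _ ht
    have hsT1 : s ∈ T1 := mem_union_left _ hs
    by_cases hpar : t % 2 = s % 2
    · have h6 := six (t, s) (by rw [hPP, mem_filter, mem_product]; exact ⟨⟨htT1, hsT1⟩, hpar⟩)
      have := tri (tri htd h6) (sym hsd)
      refine this.trans ?_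
      norm_num
    · obtain ⟨f1, f2, f3, f4⟩ := hfl t ht
      have hw : (fl t).1 ∈ T1 := mem_union_right _ (mem_image_of_mem (fun t => (fl t).1) ht)
      have h1 : G.edist t (fl t).1 ≤ ((1 : ℕ) : ℕ∞) := by
        have := hadj t (Gi t (hT0 ht)) _ (Gi _ f1) (Or.inr ⟨f2, (fl t).2, ?_, f3⟩)
        · exact_mod_cast (SimpleGraph.edist_eq_one_iff_adj.2 this).le
        · rw [mem_coe, mem_union, mem_image]
          exact Or.inl ⟨t, ht, rfl⟩
      have hpar2 : (fl t).1 % 2 = s % 2 := by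
        unfold Nat.dist at f3
        omega
      have h6 := six ((fl t).1, s) (by rw [hPP, mem_filter, mem_product]; exact ⟨⟨hw, hsT1⟩, hpar2⟩)
      have := tri (tri (tri htd h1) h6) (sym hsd)
      refine this.trans ?_
      norm_num

end Pool.Agent.Q107.GR
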