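import Pool.Agent.Q107.GR.Few

set_option autoImplicit false

/-! Almost all vertices: roots, small differences, a set with logarithmically many elements. -/

namespace Pool.Agent.Q107.GR

open Finset
open Pool.Agent.H373R2.T7 (ev_L' ev_log')
open Pool.Agent.Q143.GG (R N2 Cd R_symm)

/-- one exceptional set for all exponents, and one small linking set, in every scale -/
theorem scaleB : ∃ q : ℕ, 2 ≤ q ∧ ∃ K : ℕ, ∃ E T : ℕ → Finset ℕ, (∀ n, (T n).card ≤ K) ∧ (∀ n, ∀ t ∈ T n, Nat.sqrt n ≤ t) ∧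
    (∃ N₁ : ℕ, 3 * q ≤ N₁ ∧ ∀ n : ℕ, N₁ ≤ n → E n ⊆ Icc 1 n ∧ (E n).card * (4 * q) ≤ n ∧
      (∀ x ∈ Icc 1 n, x ∉ E n → 4 * n ≤ q * (N2 n x).card) ∧
      ∀ (G : SimpleGraph ℕ), (∀ x ∈ Icc 1 n, ∀ y ∈ Icc 1 n, Ed (T n : Set ℕ) x y → G.Adj x y) →
        ∀ x ∈ Icc 1 n \ E n, ∀ y ∈ Icc 1 n \ E n, G.edist x y ≤ 15) ∧
    ∀ A : ℕ, ∃ N₀ : ℕ, ∀ n : ℕ, N₀ ≤ n → ((E n).card : ℝ) ≤ n / Real.log n ^ A := by
  classical
  obtain ⟨c, hc, K, h⟩ := scaleA
  choose N hN using h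
  have hex : ∀ A n : ℕ, ∃ P : Finset ℕ × Finset ℕ, P.2.card ≤ K ∧ (∀ t ∈ P.2, Nat.sqrt n ≤ t) ∧ (N A ≤ n →
      P.1 ⊆ Icc 1 n ∧ (P.1.card : ℝ) ≤ n / Real.log n ^ A ∧ (∀ x ∈ Icc 1 n, x ∉ P.1 → c * n ≤ (N2 n x).card) ∧
      ∀ (G : SimpleGraph ℕ), (∀ x ∈ Icc 1 n, ∀ y ∈ Icc 1 n, Ed (P.2 : Set ℕ) x y → G.Adj x y) →
        ∀ x ∈ Icc 1 n \ P.1, ∀ y ∈ Icc 1 n \ P.1, G.edist x y ≤ 15) := by
    intro A n
    by_cases hn : N A ≤ n
    · obtain ⟨E, h1, h2, h3, T, h4, h5, h6⟩ := hN A n hn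
      exact ⟨(E, T), h4, h5, fun _ => ⟨h1, h2, h3, h6⟩⟩
    · exact ⟨(∅, ∅), by simp, by simp, fun h => absurd h hn⟩
  choose P hP1 hP2 hP3 using hex
  obtain ⟨q0, hq0⟩ := exists_nat_ge (4 / c)
  set q := q0 + 2 with hq
  have hqc : 4 ≤ c * q := by
    rw [div_le_iff₀ hc] at hq0
    rw [hq]
    push_cast
    nlinarith
  set a : ℕ → ℕ := fun n => Nat.findGreatest (fun A => N A ≤ n) n with ha
  have haA : ∀ A n : ℕ, A ≤ n → N A ≤ n → A ≤ a n ∧ N (a n) ≤ n := by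
    intro A n h1 h2
    exact ⟨Nat.le_findGreatest h1 h2, Nat.findGreatest_spec (P := fun A => N A ≤ n) h1 h2⟩
  have hsm : ∀ A n : ℕ, A + N A + 3 ≤ n → ((P (a n) n).1.card : ℝ) ≤ n / Real.log n ^ A := by
    intro A n hn
    obtain ⟨h1, h2⟩ := haA A n (by omega) (by omega)
    obtain ⟨_, h3, _⟩ := hP3 (a n) n h2
    refine h3.trans (div_le_div_of_nonneg_left (Nat.cast_nonneg _) ?_ ?_)
    · apply pow_pos
      apply Real.log_pos
      exact_mod_cast (by omega : 1 < n)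
    · apply pow_le_pow_right₀ _ h1
      have h4 : Real.exp 1 ≤ n := by
        have h5 := Real.exp_one_lt_d9
        have h6 : (3 : ℝ) ≤ n := by exact_mod_cast (by omega : 3 ≤ n)
        linarith
      rw [Real.le_log_iff_exp_le (by exact_mod_cast (by omega : 0 < n))]
      exact h4
  obtain ⟨M, hM⟩ := ev_L' (4 * q)
  refine ⟨q, by omega, K, fun n => (P (a n) n).1, fun n => (P (a n) n).2, fun n => hP1 _ _, fun n => hP2 _ _,
    ⟨3 * q + 1 + N 1 + 3 + M, by omega, ?_⟩, fun A => ⟨A + N A + 3, fun n hn => hsm A n hn⟩⟩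
  intro n hn
  obtain ⟨_, h2⟩ := haA 1 n (by omega) (by omega)
  obtain ⟨h3, _, h5, h6⟩ := hP3 (a n) n h2
  have hn0 : (0 : ℝ) < n := by exact_mod_cast (by omega : 0 < n)
  refine ⟨h3, ?_, ?_, h6⟩
  · have h7 := hsm 1 n (by omega)
    have h8 := hM n (by omega)
    rw [pow_one] at h7
    have hq0' : (0 : ℝ) < 4 * q := by positivity
    have h9 : (n : ℝ) / Real.log n ≤ n / (4 * q) := div_le_div_of_nonneg_left hn0.le hq0' h8
    have h10 : ((P (a n) n).1.card : ℝ) * (4 * q) ≤ n := by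
      rw [← le_div_iff₀ hq0']
      exact h7.trans h9
    exact_mod_cast h10
  · intro x hx hxE
    have h7 := h5 x hx hxE
    have h8 : (4 : ℝ) * n ≤ q * (N2 n x).card := by
      have hq1 : (0 : ℝ) ≤ q := Nat.cast_nonneg _
      have h9 : (q : ℝ) * (c * n) ≤ q * (N2 n x).card := mul_le_mul_of_nonneg_left h7 hq1
      nlinarith
    exact_mod_cast h8

lemma N2_edist {n x y : ℕ} {G : SimpleGraph ℕ} (hG : ∀ x ∈ Icc 1 n, ∀ y ∈ Icc 1 n, R x y → G.Adj x y) (hx : x ∈ Icc 1 n)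
    (hy : y ∈ N2 n x) : G.edist x y ≤ ((2 : ℕ) : ℕ∞) := by
  unfold N2 at hy
  rw [mem_filter, card_pos] at hy
  obtain ⟨hx1, z, hz⟩ := hy
  unfold Cd at hz
  rw [mem_filter] at hz
  have h1 : G.edist x z ≤ ((1 : ℕ) : ℕ∞) := by
    exact_mod_cast (SimpleGraph.edist_eq_one_iff_adj.2 (hG x hx z hz.1 hz.2.1)).le
  have h2 : G.edist z y ≤ ((1 : ℕ) : ℕ∞) := by
    exact_mod_cast (SimpleGraph.edist_eq_one_iff_adj.2 (hG z hz.1 y hx1 (R_symm hz.2.2))).le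
  exact tri h1 h2

lemma N2_sub_B2 {n x : ℕ} {G : SimpleGraph ℕ} (hG : ∀ x ∈ Icc 1 n, ∀ y ∈ Icc 1 n, R x y → G.Adj x y) (hx : x ∈ Icc 1 n) :
    N2 n x ⊆ B2 G n x := by
  classical
  intro y hy
  unfold B2
  rw [mem_filter]
  refine ⟨?_, by exact_mod_cast N2_edist hG hx hy⟩
  unfold N2 at hy
  exact (mem_filter.1 hy).1

/-- the structure of the classes -/
theorem rooted_main : ∃ q : ℕ, 2 ≤ q ∧ ∀ H : ℕ → SimpleGraph ℕ, (∀ m n, m ≤ n → H m ≤ H n) →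
    (∀ n, ∀ x ∈ Icc 1 n, ∀ y ∈ Icc 1 n, R x y → (H n).Adj x y) →
    ∃ F : Finset ℕ, F.Nonempty ∧ (∀ u ∈ F, 1 ≤ u) ∧ (∀ n, ∀ u ∈ F, ∀ v ∈ F, u ≠ v → ¬ (H n).Reachable u v) ∧
    (∃ N' : ℕ, ∀ n, N' ≤ n → ∀ u ∈ F, u ≤ n ∧ ∃ X ⊆ Icc 1 n, 4 * n ≤ q * X.card ∧ ∀ x ∈ X, (H n).Reachable u x) ∧
    ∃ C : ℝ, ∀ A : ℕ, ∃ N' : ℕ, ∀ n, N' ≤ n → ∃ E ⊆ Icc 1 n, (E.card : ℝ) ≤ n / Real.log n ^ A ∧
      ∀ x ∈ Icc 1 n, x ∉ E → ∃ u ∈ F, ∃ k : ℕ, (H n).edist x u ≤ k ∧ (k : ℝ) ≤ C * Real.log n := by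
  classical
  obtain ⟨q, hq, K, E, T, hT1, hT2, ⟨N₁, hN1, h1⟩, hA⟩ := scaleB
  refine ⟨q, hq, fun H hmono hadj => ?_⟩
  have hB : Big H q N₁ E :=
    { mono := hmono
      q1 := hq
      N1 := hN1
      small := fun n hn => (h1 n hn).2.1
      big := fun n hn x hx hxE => ((h1 n hn).2.2.1 x hx hxE).trans
        (Nat.mul_le_mul_left _ (card_le_card (N2_sub_B2 (hadj n) hx))) }
  obtain ⟨F, hF, hFN, hdis, C, N', hN'⟩ := rooted hB
  refine ⟨F, hF, fun u hu => (mem_Icc.1 (hFN hu)).1, hdis, ⟨N' + N₁, fun n hn u hu => ?_⟩, C, fun A => ?_⟩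
  · have hu1 := mem_Icc.1 (hFN hu)
    obtain ⟨x, hx, hux, hbig⟩ := (hN' n (by omega)).1 u hu
    refine ⟨by omega, B2 (H n) n x, filter_subset _ _, hbig, fun y hy => ?_⟩
    unfold B2 at hy
    rw [mem_filter] at hy
    exact hux.trans (reach_of (a := 2) (by exact_mod_cast hy.2))
  · obtain ⟨N₀, h0⟩ := hA A
    refine ⟨N₀ + N' + N₁, fun n hn => ⟨E n, (h1 n (by omega)).1, h0 n (by omega), fun x hx hxE => ?_⟩⟩
    exact (hN' n (by omega)).2 x (hB.big n (by omega) x hx hxE)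

lemma Ed_symm {T : Set ℕ} {x y : ℕ} (h : Ed T x y) : Ed T y x := by
  rcases h with h | ⟨h1, j, hj, h2⟩
  · exact Or.inl (R_symm h)
  · refine Or.inr ⟨by rwa [add_comm], j, hj, by rwa [Nat.dist_comm]⟩

lemma Ed_ne {T : Set ℕ} {x y : ℕ} (h : Ed T x y) : x ≠ y := by
  rintro rfl
  rcases h with ⟨_, h⟩ | ⟨_, j, _, h⟩
  · rw [Nat.dist_self] at h
    exact Nat.not_prime_zero h
  · rw [Nat.dist_self] at h
    omega

/-- the graph on `[1, n]` -/
def HT (T : Set ℕ) (n : ℕ) : SimpleGraph ℕ where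
  Adj x y := (x ∈ Icc 1 n ∧ y ∈ Icc 1 n) ∧ Ed T x y
  symm := ⟨fun _ _ h => ⟨⟨h.1.2, h.1.1⟩, Ed_symm h.2⟩⟩
  loopless := ⟨fun _ h => Ed_ne h.2 rfl⟩

lemma HT_le {T : Set ℕ} {n : ℕ} {G : SimpleGraph ℕ} (h : ∀ x ∈ Icc 1 n, ∀ y ∈ Icc 1 n, Ed T x y → G.Adj x y) :
    HT T n ≤ G := fun x y hxy => h x hxy.1.1 y hxy.1.2 hxy.2

/-- going down to `1` -/
lemma down (B n : ℕ) (hBn : B ≤ n) : ∀ x, 1 ≤ x → x ≤ B → (HT {j | 2 * j + 1 ≤ B} n).edist x 1 ≤ (x : ℕ∞) := by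
  intro x
  induction x using Nat.strong_induction_on with
  | _ x ih =>
    intro hx1 hxB
    rcases Nat.eq_or_lt_of_le hx1 with h | h
    · rw [← h, SimpleGraph.edist_self]
      simp
    · obtain ⟨p, hp, hp1, hp2⟩ := Nat.exists_prime_lt_and_le_two_mul x (by omega)
      have hpx : p ≠ 2 * x := by
        intro h2
        have := (Nat.prime_dvd_prime_iff_eq Nat.prime_two hp).1 ⟨x, h2⟩
        omega
      have hodd : p % 2 = 1 := hp.eq_two_or_odd.resolve_left (by omega)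
      have h1 := ih (p - x) (by omega) (by omega) (by omega)
      have hadj : (HT {j | 2 * j + 1 ≤ B} n).Adj x (p - x) := by
        refine ⟨⟨mem_Icc.2 ⟨by omega, by omega⟩, mem_Icc.2 ⟨by omega, by omega⟩⟩, Or.inr ⟨?_, (2 * x - p) / 2, ?_, ?_⟩⟩
        · have : x + (p - x) = p := by omega
          rw [this]; exact hp
        · rw [Set.mem_ofPred_eq]
          omega
        · unfold Nat.dist
          omega
      have h2 : (HT {j | 2 * j + 1 ≤ B} n).edist x (p - x) ≤ ((1 : ℕ) : ℕ∞) := by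
        exact_mod_cast (SimpleGraph.edist_eq_one_iff_adj.2 hadj).le
      refine (tri h2 h1).trans ?_
      exact_mod_cast (by omega : 1 + (p - x) ≤ x)

/-- bounded additional differences -/
theorem small_diffs : ∃ B : ℕ, ∃ C : ℝ, ∀ A : ℕ, ∃ N' : ℕ, ∀ n, N' ≤ n → ∃ E ⊆ Icc 1 n, (E.card : ℝ) ≤ n / Real.log n ^ A ∧
    ∀ x ∈ Icc 1 n, x ∉ E → ∀ y ∈ Icc 1 n, y ∉ E → ∃ k : ℕ, (HT {j | 2 * j + 1 ≤ B} n).edist x y ≤ k ∧
      (k : ℝ) ≤ C * Real.log n := by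
  classical
  obtain ⟨q, hq, K, E, T, hT1, hT2, ⟨N₁, hN1, h1⟩, hA⟩ := scaleB
  set H : ℕ → SimpleGraph ℕ := fun n => HT {j | 2 * j + 1 ≤ N₁} n with hH
  have hB : Big H q N₁ E :=
    { mono := by
        intro m n hmn x y h
        obtain ⟨⟨h2, h3⟩, h4⟩ := h
        rw [mem_Icc] at h2 h3
        exact ⟨⟨mem_Icc.2 ⟨by omega, by omega⟩, mem_Icc.2 ⟨by omega, by omega⟩⟩, h4⟩
      q1 := hq
      N1 := hN1
      small := fun n hn => (h1 n hn).2.1
      big := fun n hn x hx hxE => ((h1 n hn).2.2.1 x hx hxE).trans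
        (Nat.mul_le_mul_left _ (card_le_card (N2_sub_B2 (G := H n) (fun x hx y hy hR => ⟨⟨hx, hy⟩, Or.inl hR⟩) hx))) }
  refine ⟨N₁, 8 * q + 4 * N₁, fun A => ?_⟩
  obtain ⟨N₀, h0⟩ := hA A
  refine ⟨N₀ + N₁, fun n hn => ⟨E n, (h1 n (by omega)).1, h0 n (by omega), fun x hx hxE y hy hyE => ?_⟩⟩
  obtain ⟨z, hz, _, k, hk, hkl⟩ := desc hB n N₁ le_rfl (by omega) x hx hxE
  obtain ⟨w, hw, _, l, hl, hll⟩ := desc hB n N₁ le_rfl (by omega) y hy hyE
  rw [mem_Icc] at hz hw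
  have d1 := down N₁ n (by omega) z hz.1 hz.2
  have d2 := down N₁ n (by omega) w hw.1 hw.2
  have hl' : (H n).edist w y ≤ (l : ℕ∞) := by rwa [SimpleGraph.edist_comm]
  have d2' : (H n).edist 1 w ≤ (w : ℕ∞) := by rwa [SimpleGraph.edist_comm]
  refine ⟨k + z + w + l, tri (tri (tri hk d1) d2') hl', ?_⟩
  have hlog1 : 1 / 2 ≤ Real.log n := by
    have h1 : Real.log 2 ≤ Real.log n := Real.log_le_log (by norm_num) (by exact_mod_cast (by omega : 2 ≤ n))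
    have := Real.log_two_gt_d9
    linarith
  have hz' : (z : ℝ) ≤ N₁ := by exact_mod_cast hz.2
  have hw' : (w : ℝ) ≤ N₁ := by exact_mod_cast hw.2
  have hN0 : (0 : ℝ) ≤ N₁ := Nat.cast_nonneg _
  push_cast
  nlinarith

/-- a set with logarithmically many elements -/
theorem part3 : ∃ C : ℝ, 0 < C ∧ ∃ T : Set ℕ, (∀ x : ℕ, 2 ≤ x → ((T ∩ Set.Iic x).ncard : ℝ) ≤ C * Real.log x) ∧
    ∀ A : ℕ, ∃ N' : ℕ, ∀ n, N' ≤ n → ∃ E ⊆ Icc 1 n, (E.card : ℝ) ≤ n / Real.log n ^ A ∧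
      ∀ G : SimpleGraph ℕ, (∀ x ∈ Icc 1 n, ∀ y ∈ Icc 1 n, Ed T x y → G.Adj x y) →
        ∀ x ∈ Icc 1 n, x ∉ E → ∀ y ∈ Icc 1 n, y ∉ E → G.edist x y ≤ 19 := by
  classical
  obtain ⟨q, hq, K, E, T, hT1, hT2, ⟨N₁, hN1, h1⟩, hA⟩ := scaleB
  have hq0 : (2 : ℝ) ≤ q := by exact_mod_cast hq
  set r : ℝ := 1 + 1 / (2 * q) with hr
  have hr1 : 1 < r := by
    rw [hr]
    have : (0 : ℝ) < 1 / (2 * q) := by positivity
    linarith
  have hr0 : 0 < r := by linarith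
  have hlr : 0 < Real.log r := Real.log_pos hr1
  set g : ℕ → ℕ := fun i => ⌊r ^ i⌋₊ with hg
  refine ⟨K * (4 / Real.log r + 2) + 1, by positivity, {t | ∃ i, t ∈ T (g i)}, ?_, fun A => ?_⟩
  · intro x hx
    have hx2 : (2 : ℝ) ≤ x := by exact_mod_cast hx
    have hlx : 1 / 2 ≤ Real.log x := by
      have h2 : Real.log 2 ≤ Real.log x := Real.log_le_log (by norm_num) hx2
      have := Real.log_two_gt_d9
      linarith
    set M := ⌊4 * Real.log x / Real.log r⌋₊ + 1 with hM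
    have hsub : {t | ∃ i, t ∈ T (g i)} ∩ Set.Iic x ⊆ (((range M).biUnion (fun i => T (g i)) : Finset ℕ) : Set ℕ) := by
      rintro t ⟨⟨i, hi⟩, htx⟩
      rw [Set.mem_Iic] at htx
      rw [mem_coe, mem_biUnion]
      refine ⟨i, ?_, hi⟩
      rw [mem_range, hM, Nat.lt_succ_iff]
      apply Nat.le_floor
      have h2 := hT2 (g i) t hi
      have h3 : g i < (x + 1) ^ 2 := by
        have h4 := Nat.lt_succ_sqrt' (g i)
        have h5 : (Nat.sqrt (g i)).succ ^ 2 ≤ (x + 1) ^ 2 := Nat.pow_le_pow_left (by omega) 2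
        omega
      have h4 : r ^ i < ((x + 1 : ℕ) : ℝ) ^ 2 := by
        have h5 : r ^ i < g i + 1 := Nat.lt_floor_add_one _
        have h6 : ((g i : ℕ) : ℝ) + 1 ≤ ((x + 1 : ℕ) : ℝ) ^ 2 := by exact_mod_cast h3
        linarith
      have h5 : ((x + 1 : ℕ) : ℝ) ^ 2 ≤ (x : ℝ) ^ 4 := by
        push_cast
        have h6 : (x : ℝ) + 1 ≤ x ^ 2 := by nlinarith
        have h7 : ((x : ℝ) + 1) ^ 2 ≤ (x ^ 2) ^ 2 := pow_le_pow_left₀ (by linarith) h6 2
        calc ((x : ℝ) + 1) ^ 2 ≤ (x ^ 2) ^ 2 := h7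
          _ = _ := by ring
      have h6 : Real.log (r ^ i) ≤ Real.log ((x : ℝ) ^ 4) := Real.log_le_log (by positivity) (h4.le.trans h5)
      rw [Real.log_pow, Real.log_pow] at h6
      rw [le_div_iff₀ hlr]
      exact_mod_cast h6
    have h2 : ({t | ∃ i, t ∈ T (g i)} ∩ Set.Iic x).ncard ≤ ((range M).biUnion (fun i => T (g i))).card := by
      rw [← Set.ncard_coe_finset]
      exact Set.ncard_le_ncard hsub (finite_toSet _)
    have h3 : ((range M).biUnion (fun i => T (g i))).card ≤ M * K := by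
      refine card_biUnion_le.trans ?_
      calc ∑ i ∈ range M, (T (g i)).card ≤ ∑ _i ∈ range M, K := sum_le_sum fun i _ => hT1 _
        _ = _ := by rw [sum_const, card_range, smul_eq_mul]
    have h4 : ((({t | ∃ i, t ∈ T (g i)} ∩ Set.Iic x).ncard : ℕ) : ℝ) ≤ M * K := by exact_mod_cast h2.trans h3
    refine h4.trans ?_
    have h5 : (M : ℝ) ≤ 4 * Real.log x / Real.log r + 1 := by
      rw [hM]
      push_cast
      have := Nat.floor_le (by positivity : 0 ≤ 4 * Real.log x / Real.log r)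
      linarith
    have hK0 : (0 : ℝ) ≤ K := Nat.cast_nonneg _
    calc (M : ℝ) * K ≤ (4 * Real.log x / Real.log r + 1) * K := mul_le_mul_of_nonneg_right h5 hK0
      _ ≤ (4 * Real.log x / Real.log r + 2 * Real.log x) * K := by
          apply mul_le_mul_of_nonneg_right _ hK0
          linarith
      _ = K * (4 / Real.log r + 2) * Real.log x := by ring
      _ ≤ (K * (4 / Real.log r + 2) + 1) * Real.log x := by nlinarith
  · obtain ⟨N₀, h0⟩ := hA A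
    refine ⟨N₀ + 2 * N₁ + 4 * q + 4, fun n hn => ⟨E n, (h1 n (by omega)).1, h0 n (by omega), ?_⟩⟩
    intro G hadj x hx hxE y hy hyE
    have hn1 : (1 : ℝ) ≤ n := by exact_mod_cast (by omega : 1 ≤ n)
    have hn0 : (0 : ℝ) < n := by linarith
    obtain ⟨i, hi1, hi2⟩ := exists_nat_pow_near hn1 hr1
    have hgn : g i ≤ n := by
      have h2 : g i ≤ ⌊(n : ℝ)⌋₊ := Nat.floor_le_floor hi1
      rwa [Nat.floor_natCast] at h2
    -- the distance to the grid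
    have hgd : (n : ℝ) ≤ g i + 1 + n / (2 * q) := by
      have h2 : r ^ i < g i + 1 := Nat.lt_floor_add_one _
      have h3 : (n : ℝ) < r ^ i * r := by rwa [pow_succ] at hi2
      have h4 : r ^ i * r = r ^ i + r ^ i / (2 * q) := by
        rw [hr]
        ring
      have h5 : r ^ i / (2 * q) ≤ n / (2 * q) := div_le_div_of_nonneg_right hi1 (by positivity)
      linarith
    have hgd2 : n ≤ g i + n / q := by
      have h2 : n < q * (n / q) + q := by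
        have := Nat.lt_mul_div_succ n (by omega : 0 < q)
        rw [Nat.mul_add, Nat.mul_one] at this
        exact this
      have h2' : (n : ℝ) < q * ((n / q : ℕ) : ℝ) + q := by exact_mod_cast h2
      have h3 : (4 : ℝ) * q ≤ n := by exact_mod_cast (by omega : 4 * q ≤ n)
      have h4 : (n : ℝ) / (2 * q) + 1 ≤ ((n / q : ℕ) : ℝ) := by
        have h5 : (n : ℝ) / q < ((n / q : ℕ) : ℝ) + 1 := by
          rw [div_lt_iff₀ (by linarith)]
          linarith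
        have h6 : (n : ℝ) / q = n / (2 * q) + n / (2 * q) := by
          field_simp
          norm_num
        have h7 : 2 ≤ (n : ℝ) / (2 * q) := by
          rw [le_div_iff₀ (by positivity)]
          linarith
        linarith
      have h5 : (n : ℝ) ≤ g i + ((n / q : ℕ) : ℝ) := by linarith
      exact_mod_cast h5
    have hmN : N₁ ≤ g i := by
      have h2 : n / q ≤ n / 2 := Nat.div_le_div_left hq (by norm_num)
      omega
    obtain ⟨_, hm2, hm3, hm4⟩ := h1 (g i) hmN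
    have hGR : ∀ x ∈ Icc 1 n, ∀ y ∈ Icc 1 n, R x y → G.Adj x y := fun x hx y hy h => hadj x hx y hy (Or.inl h)
    have near : ∀ x ∈ Icc 1 n, x ∉ E n → ∃ z ∈ Icc 1 (g i) \ E (g i), G.edist x z ≤ ((2 : ℕ) : ℕ∞) := by
      intro x hx hxE
      have hb := (h1 n (by omega)).2.2.1 x hx hxE
      by_contra hcon
      push Not at hcon
      have hs : N2 n x ⊆ Ioc (g i) n ∪ E (g i) := by
        intro y hy
        have hy1 : y ∈ Icc 1 n := by
          unfold N2 at hy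
          exact (mem_filter.1 hy).1
        rw [mem_Icc] at hy1
        rw [mem_union, mem_Ioc]
        by_cases h : y ≤ g i
        · right
          by_contra hE
          exact absurd (N2_edist hGR hx hy) (not_le.2 (hcon y (mem_sdiff.2 ⟨mem_Icc.2 ⟨hy1.1, h⟩, hE⟩)))
        · left
          omega
      have h2 := (card_le_card hs).trans (card_union_le _ _)
      rw [Nat.card_Ioc] at h2
      have h5 : q * (n / q) ≤ n := Nat.mul_div_le n q
      have h6 : q * (N2 n x).card ≤ q * ((n - g i) + (E (g i)).card) := Nat.mul_le_mul_left _ h2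
      have h7 : q * (n - g i) ≤ q * (n / q) := Nat.mul_le_mul_left _ (by omega)
      have h8 : q * (E (g i)).card ≤ g i := by nlinarith
      rw [Nat.mul_add] at h6
      omega
    obtain ⟨z, hz, hzd⟩ := near x hx hxE
    obtain ⟨w, hw, hwd⟩ := near y hy hyE
    have h15 := hm4 G (fun x hx y hy h => by
      rw [mem_Icc] at hx hy
      refine hadj x (mem_Icc.2 ⟨hx.1, hx.2.trans hgn⟩) y (mem_Icc.2 ⟨hy.1, hy.2.trans hgn⟩) ?_
      rcases h with h | ⟨h2, j, hj, h3⟩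
      · exact Or.inl h
      · exact Or.inr ⟨h2, j, ⟨i, hj⟩, h3⟩) z hz w hw
    have hwd' : G.edist w y ≤ ((2 : ℕ) : ℕ∞) := by rwa [SimpleGraph.edist_comm]
    have := tri (tri hzd (by exact_mod_cast h15 : G.edist z w ≤ ((15 : ℕ) : ℕ∞))) hwd'
    refine this.trans ?_
    norm_num

end Pool.Agent.Q107.GR
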