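import Mathlib

set_option autoImplicit false

/-! Random choices meet all sets of a small family of large sets. -/

namespace Pool.Agent.Q107.GR

open Finset

lemma avoid_card (n k : ℕ) (J : Finset ℕ) (hJ : J ⊆ range n) :
    (univ.filter (fun r : Fin k → Fin n => ∀ i, (r i : ℕ) ∉ J)).card = (n - J.card) ^ k := by
  classical
  have h1 : univ.filter (fun r : Fin k → Fin n => ∀ i, (r i : ℕ) ∉ J) =
      Fintype.piFinset (fun _ : Fin k => univ.filter (fun a : Fin n => (a : ℕ) ∉ J)) := by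
    ext r
    simp [Fintype.mem_piFinset]
  have h2 : (univ.filter (fun a : Fin n => (a : ℕ) ∉ J)).card = n - J.card := by
    have h3 : (univ.filter (fun a : Fin n => (a : ℕ) ∈ J)).card = J.card := by
      rw [← card_image_of_injective _ Fin.val_injective]
      congr 1
      ext a
      rw [mem_image]
      constructor
      · rintro ⟨b, hb, rfl⟩
        exact (mem_filter.1 hb).2
      · intro ha
        exact ⟨⟨a, mem_range.1 (hJ ha)⟩, by simpa using ha, rfl⟩
    have h4 := card_filter_add_card_filter_not (s := (univ : Finset (Fin n))) (fun a : Fin n => (a : ℕ) ∈ J)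
    rw [card_univ, Fintype.card_fin] at h4
    omega
  rw [h1, Fintype.card_piFinset, prod_const, h2, card_univ, Fintype.card_fin]

lemma avoid_le (n k : ℕ) (hn : 1 ≤ n) (J : Finset ℕ) (hJ : J ⊆ range n) (θ : ℝ) (hθ : θ * n ≤ J.card) :
    ((univ.filter (fun r : Fin k → Fin n => ∀ i, (r i : ℕ) ∉ J)).card : ℝ) ≤ (n : ℝ) ^ k * Real.exp (-(k * θ)) := by
  rw [avoid_card n k J hJ]
  have hn0 : (0 : ℝ) < n := by exact_mod_cast (by omega : 0 < n)
  have hc : J.card ≤ n := by simpa using card_le_card hJ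
  push_cast [Nat.cast_sub hc]
  have h1 : (n : ℝ) - J.card ≤ n * Real.exp (-θ) := by
    have h2 := Real.add_one_le_exp (-θ)
    have h3 : (n : ℝ) * (-θ + 1) ≤ n * Real.exp (-θ) := mul_le_mul_of_nonneg_left h2 hn0.le
    linarith
  have h0 : (0 : ℝ) ≤ (n : ℝ) - J.card := by
    have : (J.card : ℝ) ≤ n := by exact_mod_cast hc
    linarith
  calc ((n : ℝ) - J.card) ^ k ≤ (n * Real.exp (-θ)) ^ k := pow_le_pow_left₀ h0 h1 k
    _ = n ^ k * Real.exp (-(k * θ)) := by
        rw [mul_pow, ← Real.exp_nat_mul]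
        congr 2
        ring

/-- the choices which miss one of the sets -/
lemma miss_le (n k : ℕ) (hn : 1 ≤ n) (F : Finset (Finset ℕ)) (θ : ℝ)
    (hF : ∀ J ∈ F, J ⊆ range n ∧ θ * n ≤ J.card) :
    ((univ.filter (fun r : Fin k → Fin n => ∃ J ∈ F, ∀ i, (r i : ℕ) ∉ J)).card : ℝ) ≤
      F.card * ((n : ℝ) ^ k * Real.exp (-(k * θ))) := by
  classical
  have hs : univ.filter (fun r : Fin k → Fin n => ∃ J ∈ F, ∀ i, (r i : ℕ) ∉ J) ⊆
      F.biUnion (fun J => univ.filter (fun r : Fin k → Fin n => ∀ i, (r i : ℕ) ∉ J)) := by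
    intro r hr
    rw [mem_filter] at hr
    obtain ⟨_, J, hJ, h⟩ := hr
    rw [mem_biUnion]
    exact ⟨J, hJ, by rw [mem_filter]; exact ⟨mem_univ _, h⟩⟩
  have h1 := (card_le_card hs).trans card_biUnion_le
  have h2 : ((univ.filter (fun r : Fin k → Fin n => ∃ J ∈ F, ∀ i, (r i : ℕ) ∉ J)).card : ℝ) ≤
      ∑ J ∈ F, ((univ.filter (fun r : Fin k → Fin n => ∀ i, (r i : ℕ) ∉ J)).card : ℝ) := by exact_mod_cast h1
  refine h2.trans ?_
  rw [← nsmul_eq_mul, ← sum_const]
  exact sum_le_sum fun J hJ => avoid_le n k hn J (hF J hJ).1 θ (hF J hJ).2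

/-- a small set which meets all sets of the family -/
lemma hit_exists (n k : ℕ) (hn : 1 ≤ n) (F : Finset (Finset ℕ)) (θ : ℝ)
    (hF : ∀ J ∈ F, J ⊆ range n ∧ θ * n ≤ J.card) (hsmall : F.card * Real.exp (-(k * θ)) < 1) :
    ∃ T : Finset ℕ, T.card ≤ k ∧ ∀ J ∈ F, ∃ j ∈ J, j ∈ T := by
  classical
  have hn0 : (0 : ℝ) < n := by exact_mod_cast (by omega : 0 < n)
  have h1 := miss_le n k hn F θ hF
  have h2 : ((univ.filter (fun r : Fin k → Fin n => ∃ J ∈ F, ∀ i, (r i : ℕ) ∉ J)).card : ℝ) < (n : ℝ) ^ k := by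
    refine lt_of_le_of_lt h1 ?_
    have : (F.card : ℝ) * ((n : ℝ) ^ k * Real.exp (-(k * θ))) = (F.card * Real.exp (-(k * θ))) * (n : ℝ) ^ k := by ring
    rw [this]
    calc _ < 1 * (n : ℝ) ^ k := mul_lt_mul_of_pos_right hsmall (by positivity)
      _ = _ := one_mul _
  have h3 : (univ.filter (fun r : Fin k → Fin n => ∃ J ∈ F, ∀ i, (r i : ℕ) ∉ J)).card < n ^ k := by exact_mod_cast h2
  have h4 : ∃ r : Fin k → Fin n, ¬ ∃ J ∈ F, ∀ i, (r i : ℕ) ∉ J := by
    by_contra hcon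
    push Not at hcon
    have h5 : univ.filter (fun r : Fin k → Fin n => ∃ J ∈ F, ∀ i, (r i : ℕ) ∉ J) = univ := by
      apply filter_true_of_mem
      intro r _
      exact hcon r
    rw [h5, card_univ, Fintype.card_fun, Fintype.card_fin, Fintype.card_fin] at h3
    exact lt_irrefl _ h3
  obtain ⟨r, hr⟩ := h4
  push Not at hr
  refine ⟨univ.image (fun i => (r i : ℕ)), ?_, fun J hJ => ?_⟩
  · exact card_image_le.trans (by simp)
  · obtain ⟨i, hi⟩ := hr J hJ
    exact ⟨r i, hi, mem_image.2 ⟨i, mem_univ _, rfl⟩⟩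

end Pool.Agent.Q107.GR
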