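import Pool.Agent.Q107.GR.Hit
import Pool.Agent.Q107.GR.Prob

set_option autoImplicit false

/-! The random set and the fixed set. -/

namespace Pool.Agent.Q107.GR

open Finset
open Pool.Agent.H373R2.T7 (ev_L' ev_log')

/-- all graphs with the edges `Ed T` have diameter at most `9` -/
def Good (n : ℕ) (T : Set ℕ) : Prop :=
  ∀ (V : Type) (G : SimpleGraph V) (f : ℕ → V), (∀ x ∈ Icc 1 n, ∀ y ∈ Icc 1 n, Ed T x y → G.Adj (f x) (f y)) →
    (∀ v : V, (∃ x ∈ Icc 1 n, f x = v) ∨ ∀ p : ℕ, p.Prime → p ≠ 2 → p ≤ n → G.Adj v (f p)) →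
      ∀ u v : V, G.edist u v ≤ 9

open Classical in
theorem part1 : ∃ K : ℝ, 0 < K ∧ ∀ B : ℕ, ∃ N₀ : ℕ, ∀ n : ℕ, N₀ ≤ n → ∀ k : ℕ, K * (B + 1) * Real.log n ^ 2 ≤ k →
    ((univ.filter (fun r : Fin k → Fin n => ¬ Good n {j | ∃ i, (r i : ℕ) = j})).card : ℝ) ≤ (n : ℝ) ^ k / (n : ℝ) ^ B := by
  obtain ⟨δ, hδ, N₀, h⟩ := hitting
  refine ⟨4 / δ, by positivity, fun B => ⟨N₀ + 3, fun n hn k hk => ?_⟩⟩
  obtain ⟨F, hFc, hF, hFT⟩ := h n (by omega)
  have hn3 : (3 : ℝ) ≤ n := by exact_mod_cast (by omega : 3 ≤ n)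
  have hn0 : (0 : ℝ) < n := by linarith
  have hL : 0 < Real.log n := Real.log_pos (by linarith)
  set L := Real.log (n : ℝ) with hLd
  have h1 := miss_le n k (by omega) F (δ / L) (fun J hJ => ⟨(hF J hJ).1, by
    have := (hF J hJ).2
    rw [mul_div_assoc'] at this
    rwa [div_mul_eq_mul_div]⟩)
  have h2 : (univ.filter (fun r : Fin k → Fin n => ¬ Good n {j | ∃ i, (r i : ℕ) = j})).card ≤
      (univ.filter (fun r : Fin k → Fin n => ∃ J ∈ F, ∀ i, (r i : ℕ) ∉ J)).card := by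
    apply card_le_card
    intro r hr
    rw [mem_filter] at hr ⊢
    refine ⟨mem_univ _, ?_⟩
    by_contra hcon
    push Not at hcon
    apply hr.2
    intro V G f h3 h4
    apply hFT _ _ V G f h3 h4
    intro J hJ
    obtain ⟨i, hi⟩ := hcon J hJ
    exact ⟨r i, hi, i, rfl⟩
  have h3 : ((univ.filter (fun r : Fin k → Fin n => ¬ Good n {j | ∃ i, (r i : ℕ) = j})).card : ℝ) ≤
      (univ.filter (fun r : Fin k → Fin n => ∃ J ∈ F, ∀ i, (r i : ℕ) ∉ J)).card := by exact_mod_cast h2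
  refine h3.trans (h1.trans ?_)
  have h4 : Real.exp (-(k * (δ / L))) ≤ ((n : ℝ) ^ (4 * (B + 1)))⁻¹ := by
    have h5 : (4 * (B + 1) : ℝ) * L ≤ k * (δ / L) := by
      have h6 : 4 / δ * (B + 1) * L ^ 2 * (δ / L) ≤ k * (δ / L) := mul_le_mul_of_nonneg_right hk (by positivity)
      refine le_trans (le_of_eq ?_) h6
      field_simp
    have h6 : ((n : ℝ) ^ (4 * (B + 1)))⁻¹ = Real.exp (-((4 * (B + 1) : ℝ) * L)) := by
      rw [Real.exp_neg]
      congr 1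
      have : (4 * (B + 1) : ℝ) * L = ((4 * (B + 1) : ℕ) : ℝ) * L := by push_cast; ring
      rw [this, Real.exp_nat_mul, hLd, Real.exp_log hn0]
    rw [h6]
    apply Real.exp_le_exp.2
    linarith
  have h5 : (F.card : ℝ) * ((n : ℝ) ^ k * Real.exp (-(k * (δ / L)))) ≤
      3 * (n : ℝ) ^ 2 * ((n : ℝ) ^ k * ((n : ℝ) ^ (4 * (B + 1)))⁻¹) :=
    mul_le_mul hFc (mul_le_mul_of_nonneg_left h4 (by positivity)) (by positivity) (by positivity)
  refine h5.trans ?_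
  rw [le_div_iff₀ (by positivity)]
  have h6 : 3 * (n : ℝ) ^ 2 * ((n : ℝ) ^ k * ((n : ℝ) ^ (4 * (B + 1)))⁻¹) * (n : ℝ) ^ B =
      (n : ℝ) ^ k * ((3 * (n : ℝ) ^ (B + 2)) / (n : ℝ) ^ (4 * (B + 1))) := by
    rw [pow_add (n : ℝ) B 2]
    field_simp
  rw [h6]
  apply mul_le_of_le_one_right (by positivity)
  rw [div_le_one (by positivity)]
  calc 3 * (n : ℝ) ^ (B + 2) ≤ n * (n : ℝ) ^ (B + 2) := mul_le_mul_of_nonneg_right hn3 (by positivity)
    _ = (n : ℝ) ^ (B + 3) := by ring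
    _ ≤ (n : ℝ) ^ (4 * (B + 1)) := pow_le_pow_right₀ (by linarith) (by omega)

/-- the family of one scale -/
lemma scale (δ : ℝ) (hδ : 0 < δ) (N₀ : ℕ) (F : ℕ → Finset (Finset ℕ))
    (hF1 : ∀ n, N₀ ≤ n → ((F n).card : ℝ) ≤ 3 * (n : ℝ) ^ 2)
    (hF2 : ∀ n, N₀ ≤ n → ∀ J ∈ F n, J ⊆ range n ∧ δ * (n / Real.log n) ≤ J.card) :
    ∃ K : ℕ, ∃ j₀ : ℕ, ∀ j : ℕ, j₀ ≤ j → ∃ T : Finset ℕ, T.card ≤ K * (j + 1) ^ 2 ∧ (∀ t ∈ T, 2 ^ (j / 2) ≤ t) ∧
      ∀ n : ℕ, 2 ^ j ≤ n → n < 2 ^ (j + 1) → ∀ J ∈ F n, ∃ t ∈ J, t ∈ T := by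
  classical
  obtain ⟨K, hK⟩ := exists_nat_ge (16 / δ)
  -- `2 ^ (j / 2)` is small
  obtain ⟨M, hM⟩ := ev_log' 1 (8 / δ)
  refine ⟨K, N₀ + M + 2, fun j hj => ?_⟩
  have hjN : N₀ + M + 2 ≤ 2 ^ j := hj.trans (Nat.lt_two_pow_self).le
  have h2j : (0 : ℝ) < 2 ^ j := by positivity
  have hj1 : (0 : ℝ) < (j : ℝ) + 1 := by positivity
  have hlog2 : Real.log 2 ≤ 1 := by
    have := Real.log_two_lt_d9
    linarith
  have hlog20 : 0 < Real.log 2 := Real.log_pos (by norm_num)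
  set fam : Finset (Finset ℕ) := (Ico (2 ^ j) (2 ^ (j + 1))).biUnion (fun n => (F n).image (fun J => J.filter (fun t => 2 ^ (j / 2) ≤ t))) with hfam
  have hfamc : (fam.card : ℝ) ≤ 12 * 8 ^ j := by
    have h1 : fam.card ≤ ∑ n ∈ Ico (2 ^ j) (2 ^ (j + 1)), (F n).card := by
      refine card_biUnion_le.trans (sum_le_sum fun n _ => card_image_le)
    have h2 : (fam.card : ℝ) ≤ ∑ n ∈ Ico (2 ^ j) (2 ^ (j + 1)), ((F n).card : ℝ) := by exact_mod_cast h1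
    have h3 : ∑ n ∈ Ico (2 ^ j) (2 ^ (j + 1)), ((F n).card : ℝ) ≤ ∑ n ∈ Ico (2 ^ j) (2 ^ (j + 1)), (3 * (2 ^ (j + 1)) ^ 2 : ℝ) := by
      apply sum_le_sum
      intro n hn
      rw [mem_Ico] at hn
      refine (hF1 n (by omega)).trans ?_
      have : (n : ℝ) ≤ 2 ^ (j + 1) := by exact_mod_cast hn.2.le
      have h4 : (n : ℝ) ^ 2 ≤ (2 ^ (j + 1)) ^ 2 := pow_le_pow_left₀ (Nat.cast_nonneg _) this 2
      linarith
    rw [sum_const, nsmul_eq_mul, Nat.card_Ico] at h3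
    have h4 : ((2 ^ (j + 1) - 2 ^ j : ℕ) : ℝ) = 2 ^ j := by
      have : 2 ^ (j + 1) - 2 ^ j = 2 ^ j := by rw [pow_succ]; omega
      rw [this]
      push_cast
      rfl
    rw [h4] at h3
    refine h2.trans (h3.trans (le_of_eq ?_))
    have h8 : (8 : ℝ) ^ j = 2 ^ j * 2 ^ j * 2 ^ j := by
      rw [← mul_pow, ← mul_pow]
      norm_num
    rw [h8, pow_succ (2 : ℝ) j]
    ring
  have hfam2 : ∀ J ∈ fam, J ⊆ range (2 ^ (j + 1)) ∧ δ / (4 * (j + 1)) * ((2 ^ (j + 1) : ℕ) : ℝ) ≤ J.card := by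
    intro J' hJ'
    rw [hfam, mem_biUnion] at hJ'
    obtain ⟨n, hn, hJ'⟩ := hJ'
    rw [mem_image] at hJ'
    obtain ⟨J, hJ, rfl⟩ := hJ'
    rw [mem_Ico] at hn
    obtain ⟨h1, h2⟩ := hF2 n (by omega) J hJ
    refine ⟨(filter_subset _ _).trans (h1.trans (range_mono hn.2.le)), ?_⟩
    have hn1 : (1 : ℝ) < n := by exact_mod_cast (by omega : 1 < n)
    have hn0 : (0 : ℝ) < n := by linarith
    have hnr : (2 : ℝ) ^ j ≤ n := by exact_mod_cast hn.1
    have hnr2 : (n : ℝ) < 2 ^ (j + 1) := by exact_mod_cast hn.2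
    have hL0 : 0 < Real.log n := Real.log_pos hn1
    have hLn : Real.log n ≤ j + 1 := by
      have h3 : Real.log n ≤ Real.log (2 ^ (j + 1)) := Real.log_le_log hn0 hnr2.le
      rw [Real.log_pow] at h3
      push_cast at h3
      nlinarith
    -- the size of `J`
    have h3 : δ * (2 ^ j / (j + 1)) ≤ J.card := by
      refine le_trans ?_ h2
      apply mul_le_mul_of_nonneg_left _ hδ.le
      exact div_le_div₀ hn0.le hnr hL0 hLn
    -- the small elements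
    have h4 : (J.filter (fun t => ¬ 2 ^ (j / 2) ≤ t)).card ≤ 2 ^ (j / 2) := by
      have : J.filter (fun t => ¬ 2 ^ (j / 2) ≤ t) ⊆ range (2 ^ (j / 2)) := by
        intro t ht
        rw [mem_filter, not_le] at ht
        exact mem_range.2 ht.2
      simpa using card_le_card this
    have h5 := card_filter_add_card_filter_not (s := J) (fun t => 2 ^ (j / 2) ≤ t)
    have h6 : (J.card : ℝ) ≤ (J.filter (fun t => 2 ^ (j / 2) ≤ t)).card + 2 ^ (j / 2) := by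
      have : J.card ≤ (J.filter (fun t => 2 ^ (j / 2) ≤ t)).card + 2 ^ (j / 2) := by omega
      exact_mod_cast this
    have h7 : (2 : ℝ) ^ (j / 2) ≤ δ / 2 * (2 ^ j / (j + 1)) := by
      have h8 := hM (2 ^ j) (by omega)
      rw [pow_one] at h8
      push_cast at h8
      rw [Real.log_pow] at h8
      set s := √((2 : ℝ) ^ j) with hs
      have hs0 : 0 < s := Real.sqrt_pos.2 h2j
      have hss : s * s = 2 ^ j := Real.mul_self_sqrt h2j.le
      have h9 : (2 : ℝ) ^ (j / 2) ≤ s := by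
        rw [hs]
        apply Real.le_sqrt_of_sq_le
        rw [← pow_mul]
        exact pow_le_pow_right₀ (by norm_num) (by omega)
      have hl : (1 : ℝ) / 2 ≤ Real.log 2 := by
        have := Real.log_two_gt_d9
        linarith
      have hj2 : (1 : ℝ) ≤ j := by exact_mod_cast (by omega : 1 ≤ j)
      have h10 : 2 / δ * (j + 1) ≤ s := by
        refine le_trans ?_ h8
        have h11 : 8 / δ * (j * Real.log 2) = 2 / δ * (4 * (j * Real.log 2)) := by ring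
        rw [h11]
        apply mul_le_mul_of_nonneg_left _ (by positivity)
        nlinarith
      have h12 : δ / 2 * (2 ^ j / (j + 1)) = s * s / (2 / δ * (j + 1)) := by
        rw [hss]
        field_simp
      rw [h12, le_div_iff₀ (by positivity)]
      exact mul_le_mul h9 h10 (by positivity) hs0.le
    have e : δ / (4 * (j + 1)) * ((2 ^ (j + 1) : ℕ) : ℝ) = δ / 2 * (2 ^ j / (j + 1)) := by
      push_cast
      rw [pow_succ]
      field_simp
      norm_num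
    rw [e]
    have h9 : δ * (2 ^ j / (j + 1)) = δ / 2 * (2 ^ j / (j + 1)) + δ / 2 * (2 ^ j / (j + 1)) := by ring
    linarith
  obtain ⟨T, hT, hT2⟩ := hit_exists (2 ^ (j + 1)) (K * (j + 1) ^ 2) (Nat.one_le_two_pow) fam (δ / (4 * (j + 1))) hfam2 (by
    have h1 : (4 : ℝ) * (j + 1) ≤ ((K * (j + 1) ^ 2 : ℕ) : ℝ) * (δ / (4 * (j + 1))) := by
      push_cast
      rw [div_le_iff₀ hδ] at hK
      have : (K : ℝ) * (j + 1) ^ 2 * (δ / (4 * (j + 1))) = (K * δ) * (j + 1) / 4 := by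
        field_simp
      rw [this]
      nlinarith
    have h2 : Real.exp (-(((K * (j + 1) ^ 2 : ℕ) : ℝ) * (δ / (4 * (j + 1))))) ≤ Real.exp (-(4 * (j + 1))) :=
      Real.exp_le_exp.2 (by linarith)
    have h3 : Real.exp (-(4 * ((j : ℝ) + 1))) = ((Real.exp 4) ^ (j + 1))⁻¹ := by
      rw [Real.exp_neg, ← Real.exp_nat_mul]
      congr 2
      push_cast
      ring
    have h4 : (16 : ℝ) ≤ Real.exp 4 := by
      have h5 : Real.exp 4 = (Real.exp 1) ^ 4 := by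
        rw [← Real.exp_nat_mul]
        norm_num
      rw [h5]
      have h6 : (2 : ℝ) ≤ Real.exp 1 := by
        have := Real.exp_one_gt_d9
        linarith
      calc (16 : ℝ) = 2 ^ 4 := by norm_num
        _ ≤ _ := pow_le_pow_left₀ (by norm_num) h6 4
    have h5 : ((Real.exp 4) ^ (j + 1))⁻¹ ≤ ((16 : ℝ) ^ (j + 1))⁻¹ :=
      inv_anti₀ (by positivity) (pow_le_pow_left₀ (by norm_num) h4 _)
    have h6 : (fam.card : ℝ) * Real.exp (-(((K * (j + 1) ^ 2 : ℕ) : ℝ) * (δ / (4 * (j + 1))))) ≤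
        12 * 8 ^ j * ((16 : ℝ) ^ (j + 1))⁻¹ :=
      mul_le_mul hfamc (h2.trans (h3.le.trans h5)) (Real.exp_pos _).le (by positivity)
    refine lt_of_le_of_lt h6 ?_
    rw [← div_eq_mul_inv, div_lt_one (by positivity), pow_succ]
    have h7 : (8 : ℝ) ^ j ≤ 16 ^ j := pow_le_pow_left₀ (by norm_num) (by norm_num) j
    have h8 : (0 : ℝ) < 8 ^ j := by positivity
    linarith)
  refine ⟨T.filter (fun t => 2 ^ (j / 2) ≤ t), (card_filter_le _ _).trans hT, fun t ht => (mem_filter.1 ht).2, ?_⟩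
  intro n h1 h2 J hJ
  obtain ⟨t, ht, htT⟩ := hT2 (J.filter (fun t => 2 ^ (j / 2) ≤ t)) (by
    rw [hfam, mem_biUnion]
    exact ⟨n, mem_Ico.2 ⟨h1, h2⟩, mem_image.2 ⟨J, hJ, rfl⟩⟩)
  rw [mem_filter] at ht
  exact ⟨t, ht.1, mem_filter.2 ⟨htT, ht.2⟩⟩

/-- the fixed set -/
theorem part2 : ∃ C : ℝ, 0 < C ∧ ∃ T : Set ℕ, (∀ x : ℕ, 2 ≤ x → ((T ∩ Set.Iic x).ncard : ℝ) ≤ C * Real.log x ^ 3) ∧
    ∃ N₀ : ℕ, ∀ n : ℕ, N₀ ≤ n → Good n T := by
  classical
  obtain ⟨δ, hδ, N₀, h⟩ := hitting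
  have hex : ∀ n : ℕ, ∃ F : Finset (Finset ℕ), N₀ ≤ n → (F.card : ℝ) ≤ 3 * (n : ℝ) ^ 2 ∧
      (∀ J ∈ F, J ⊆ range n ∧ δ * (n / Real.log n) ≤ J.card) ∧ ∀ T : Set ℕ, (∀ J ∈ F, ∃ j ∈ J, j ∈ T) → Good n T := by
    intro n
    by_cases hn : N₀ ≤ n
    · obtain ⟨F, h1, h2, h3⟩ := h n hn
      exact ⟨F, fun _ => ⟨h1, h2, h3⟩⟩
    · exact ⟨∅, fun h => absurd h hn⟩
  choose F hF using hex
  obtain ⟨K, j₀, hs⟩ := scale δ hδ N₀ F (fun n hn => (hF n hn).1) (fun n hn => (hF n hn).2.1)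
  have hex2 : ∀ j : ℕ, ∃ T : Finset ℕ, T.card ≤ K * (j + 1) ^ 2 ∧ (∀ t ∈ T, 2 ^ (j / 2) ≤ t) ∧
      (j₀ ≤ j → ∀ n : ℕ, 2 ^ j ≤ n → n < 2 ^ (j + 1) → ∀ J ∈ F n, ∃ t ∈ J, t ∈ T) := by
    intro j
    by_cases hj : j₀ ≤ j
    · obtain ⟨T, h1, h2, h3⟩ := hs j hj
      exact ⟨T, h1, h2, fun _ => h3⟩
    · exact ⟨∅, by simp, by simp, fun h => absurd h hj⟩
  choose T hT1 hT2 hT3 using hex2
  refine ⟨K * 216 + 1, by positivity, {t | ∃ j, t ∈ T j}, ?_, N₀ + 2 ^ j₀, ?_⟩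
  · intro x hx
    set l := Nat.log 2 x with hl
    have hl1 : 1 ≤ l := by
      rw [hl]
      exact Nat.log_pos (by norm_num) hx
    have hsub : {t | ∃ j, t ∈ T j} ∩ Set.Iic x ⊆ (((range (2 * l + 2)).biUnion T : Finset ℕ) : Set ℕ) := by
      rintro t ⟨⟨j, hj⟩, htx⟩
      rw [Set.mem_Iic] at htx
      rw [mem_coe, mem_biUnion]
      refine ⟨j, ?_, hj⟩
      rw [mem_range]
      have h1 := hT2 j t hj
      have h2 : j / 2 ≤ l := by
        rw [hl]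
        exact Nat.le_log_of_pow_le (by norm_num) (h1.trans htx)
      omega
    have h1 : ({t | ∃ j, t ∈ T j} ∩ Set.Iic x).ncard ≤ ((range (2 * l + 2)).biUnion T).card := by
      rw [← Set.ncard_coe_finset]
      exact Set.ncard_le_ncard hsub (finite_toSet _)
    have h2 : ((range (2 * l + 2)).biUnion T).card ≤ (2 * l + 2) * (K * (2 * l + 2) ^ 2) := by
      refine card_biUnion_le.trans ?_
      calc ∑ j ∈ range (2 * l + 2), (T j).card ≤ ∑ _j ∈ range (2 * l + 2), K * (2 * l + 2) ^ 2 := by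
            apply sum_le_sum
            intro j hj
            rw [mem_range] at hj
            refine (hT1 j).trans (Nat.mul_le_mul_left _ ?_)
            exact Nat.pow_le_pow_left (by omega) 2
        _ = _ := by rw [sum_const, card_range, smul_eq_mul]
    have h3 : (((({t | ∃ j, t ∈ T j} ∩ Set.Iic x).ncard : ℕ)) : ℝ) ≤ ((2 * l + 2) * (K * (2 * l + 2) ^ 2) : ℕ) := by
      exact_mod_cast h1.trans h2
    refine h3.trans ?_
    push_cast
    have hx2 : (2 : ℝ) ≤ x := by exact_mod_cast hx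
    have hx0 : (0 : ℝ) < x := by linarith
    have h4 : (l : ℝ) * Real.log 2 ≤ Real.log x := by
      have h5 : (2 : ℕ) ^ l ≤ x := Nat.pow_log_le_self 2 (by omega)
      have h6 : ((2 : ℝ)) ^ l ≤ x := by exact_mod_cast h5
      have h7 := Real.log_le_log (by positivity) h6
      rwa [Real.log_pow] at h7
    have hln : (0.69 : ℝ) ≤ Real.log 2 := by
      have := Real.log_two_gt_d9
      linarith
    have hl2 : (1 : ℝ) ≤ l := by exact_mod_cast hl1
    have h8 : (2 : ℝ) * l + 2 ≤ 6 * Real.log x := by nlinarith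
    have h9 : ((2 : ℝ) * l + 2) ^ 3 ≤ (6 * Real.log x) ^ 3 := pow_le_pow_left₀ (by linarith) h8 3
    have hK0 : (0 : ℝ) ≤ K := Nat.cast_nonneg _
    have hlx : 0 ≤ Real.log x := Real.log_nonneg (by linarith)
    calc ((2 : ℝ) * l + 2) * (K * (2 * l + 2) ^ 2) = K * (2 * l + 2) ^ 3 := by ring
      _ ≤ K * (6 * Real.log x) ^ 3 := mul_le_mul_of_nonneg_left h9 hK0
      _ = K * 216 * Real.log x ^ 3 := by ring
      _ ≤ (K * 216 + 1) * Real.log x ^ 3 := by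
          apply mul_le_mul_of_nonneg_right (by linarith) (by positivity)
  · intro n hn
    have hp2 : 0 < 2 ^ j₀ := by positivity
    have hnN : N₀ ≤ n := le_trans (Nat.le_add_right _ _) hn
    apply (hF n hnN).2.2
    intro J hJ
    have hn0 : n ≠ 0 := by
      have h1 : 2 ^ j₀ ≤ n := le_trans (Nat.le_add_left _ _) hn
      omega
    set j := Nat.log 2 n with hj
    have h1 : 2 ^ j ≤ n := Nat.pow_log_le_self 2 hn0
    have h2 : n < 2 ^ (j + 1) := Nat.lt_pow_succ_log_self (by norm_num) n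
    have h3 : j₀ ≤ j := by
      rw [hj]
      exact Nat.le_log_of_pow_le (by norm_num) (le_trans (Nat.le_add_left _ _) hn)
    obtain ⟨t, ht, htT⟩ := hT3 j h3 n h1 h2 J hJ
    exact ⟨t, ht, j, htT⟩

end Pool.Agent.Q107.GR
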