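import Pool.Agent.Q107.GR.Cnt
import Pool.Agent.Q143.GG.Main

set_option autoImplicit false

/-! The sets which an additional set of odd numbers has to meet. -/

namespace Pool.Agent.Q107.GR

open Finset
open Pool.Agent.H373R2.T7 (ev_L' ev_log')
open Pool.Agent.Q143.GG (R N2 Cd good_main prime_outside R_symm)

/-- adjacency when the odd numbers `2 j + 1`, `j ∈ T`, are admitted besides the primes -/
def Ed (T : Set ℕ) (x y : ℕ) : Prop := R x y ∨ ((x + y).Prime ∧ ∃ j ∈ T, Nat.dist x y = 2 * j + 1)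

lemma R_odd {x y : ℕ} (hx : 1 ≤ x) (hy : 1 ≤ y) (h : R x y) : (x + y) % 2 = 1 := by
  obtain ⟨h1, h2⟩ := h
  rcases h1.eq_two_or_odd with h | h
  · have := h2.two_le
    unfold Nat.dist at this
    omega
  · exact h

lemma N2_par {n b x : ℕ} (hb : 1 ≤ b) (hx : x ∈ N2 n b) : x % 2 = b % 2 := by
  unfold N2 at hx
  rw [mem_filter, card_pos, mem_Icc] at hx
  obtain ⟨hx1, y, hy⟩ := hx
  unfold Cd at hy
  rw [mem_filter, mem_Icc] at hy
  have h1 := R_odd hb hy.1.1 hy.2.1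
  have h2 := R_odd hx1.1 hy.1.1 hy.2.2
  omega

/-- the neighbours outside a small set -/
lemma JJ_big (n x : ℕ) (L : ℝ) (hL : 8 ≤ L) (hLn : 8 * L ≤ n) (E : Finset ℕ) (hx : x ≤ n)
    (hE : (E.card : ℝ) ≤ n / L ^ 2)
    (hw : 1 / 2 * (n / L) ≤ (((Ioc x (x + n)).filter Nat.Prime).card : ℝ)) :
    1 / 16 * (n / L) ≤ (JJ n x (Icc 1 n \ E)).card := by
  classical
  have hL0 : 0 < L := by linarith
  have hn0 : (0 : ℝ) < n := by linarith
  have h1 := ee_le n x (Icc 1 n \ E) hx sdiff_subset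
  have h2 : ((Ioc x (x + n)).filter Nat.Prime).card ≤ 1 + ((ee x (Icc 1 n \ E)).card + E.card) := by
    have hs : (Ioc x (x + n)).filter Nat.Prime ⊆ {2} ∪ ((ee x (Icc 1 n \ E)).image (fun y => x + y) ∪ E.image (fun y => x + y)) := by
      intro p hp
      rw [mem_filter, mem_Ioc] at hp
      obtain ⟨⟨h3, h4⟩, h5⟩ := hp
      rw [mem_union, mem_union, mem_singleton, mem_image, mem_image]
      by_cases hp2 : p = 2
      · exact Or.inl hp2
      right
      by_cases hpE : p - x ∈ E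
      · exact Or.inr ⟨p - x, hpE, by omega⟩
      · left
        refine ⟨p - x, ?_, by omega⟩
        unfold ee
        rw [mem_filter, mem_sdiff, mem_Icc]
        have e1 : x + (p - x) = p := by omega
        rw [e1]
        exact ⟨⟨⟨by omega, by omega⟩, hpE⟩, h5, hp2⟩
    have h3 := card_le_card hs
    have h4 := card_union_le ({2} : Finset ℕ) ((ee x (Icc 1 n \ E)).image (fun y => x + y) ∪ E.image (fun y => x + y))
    have h5 := card_union_le ((ee x (Icc 1 n \ E)).image (fun y => x + y)) (E.image (fun y => x + y))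
    have h6 : ((ee x (Icc 1 n \ E)).image (fun y => x + y)).card ≤ (ee x (Icc 1 n \ E)).card := card_image_le
    have h7 : (E.image (fun y => x + y)).card ≤ E.card := card_image_le
    rw [card_singleton] at h4
    omega
  have h1' : ((ee x (Icc 1 n \ E)).card : ℝ) ≤ 2 * (JJ n x (Icc 1 n \ E)).card := by exact_mod_cast h1
  have h2' : (((Ioc x (x + n)).filter Nat.Prime).card : ℝ) ≤ 1 + ((ee x (Icc 1 n \ E)).card + E.card) := by exact_mod_cast h2
  have h3 : (n : ℝ) / L ^ 2 ≤ 1 / 8 * (n / L) := by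
    rw [sq, ← div_div, div_le_iff₀ hL0]
    have : 0 < (n : ℝ) / L := by positivity
    nlinarith
  have h4 : 1 ≤ 1 / 8 * ((n : ℝ) / L) := by
    rw [mul_div_assoc', le_div_iff₀ hL0]
    linarith
  linarith

theorem hitting : ∃ δ : ℝ, 0 < δ ∧ ∃ N₀ : ℕ, ∀ n : ℕ, N₀ ≤ n → ∃ F : Finset (Finset ℕ), (F.card : ℝ) ≤ 3 * (n : ℝ) ^ 2 ∧
    (∀ J ∈ F, J ⊆ range n ∧ δ * (n / Real.log n) ≤ J.card) ∧ ∀ T : Set ℕ, (∀ J ∈ F, ∃ j ∈ J, j ∈ T) →
      ∀ (V : Type) (G : SimpleGraph V) (f : ℕ → V), (∀ x ∈ Icc 1 n, ∀ y ∈ Icc 1 n, Ed T x y → G.Adj (f x) (f y)) →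
        (∀ v : V, (∃ x ∈ Icc 1 n, f x = v) ∨ ∀ p : ℕ, p.Prime → p ≠ 2 → p ≤ n → G.Adj v (f p)) →
          ∀ u v : V, G.edist u v ≤ 9 := by
  classical
  obtain ⟨c, hc, hgood⟩ := good_main
  obtain ⟨c3, hc3, hpw⟩ := pairs_window
  obtain ⟨C1, hC1, M1, hup⟩ := primes_upper
  obtain ⟨M2, hlow⟩ := primes_window
  obtain ⟨M3, hg⟩ := hgood 2
  obtain ⟨M4, hp⟩ := hpw 2
  obtain ⟨M5, hpo⟩ := prime_outside
  obtain ⟨M6, h6⟩ := ev_L' (8 + 8 / c)
  obtain ⟨M7, h7⟩ := ev_log' 1 (8 + 4 / c)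
  refine ⟨min (1 / 16) (c ^ 2 * c3 / (4 * C1)), by positivity, M1 + M2 + M3 + M4 + M5 + M6 + M7 + 3, fun n hn => ?_⟩
  have hn0 : (0 : ℝ) < n := by exact_mod_cast (by omega : 0 < n)
  have hn1 : (1 : ℝ) ≤ n := by exact_mod_cast (by omega : 1 ≤ n)
  have hL := h6 n (by omega)
  have hLn := h7 n (by omega)
  rw [pow_one] at hLn
  have hlow' := hlow n (by omega)
  have hup' := hup n (by omega)
  obtain ⟨E1, hE1, hE1c, hE1p⟩ := hg n (by omega)
  obtain ⟨E2, hE2, hE2c, hE2p⟩ := hp n (by omega)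
  have hpo' := hpo n (by omega) E1
  set L := Real.log (n : ℝ) with hLd
  have hc8 : 0 < 8 / c := by positivity
  have hc4 : 0 < 4 / c := by positivity
  have hL8 : 8 ≤ L := by linarith
  have hL0 : 0 < L := by linarith
  have hLc : 8 ≤ c * L := by
    have : 8 / c ≤ L := by linarith
    rw [div_le_iff₀ hc] at this
    linarith
  have hsq : √(n : ℝ) ≤ n := by
    rw [Real.sqrt_le_left hn0.le]
    nlinarith
  have hLn1 : (8 + 4 / c) * L ≤ n := hLn.trans hsq
  have hLn8 : 8 * L ≤ n := by nlinarith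
  have hcn : 4 ≤ c * n := by
    have : 4 / c * L ≤ n := by nlinarith
    have h : 4 / c ≤ n := by nlinarith
    rw [div_le_iff₀ hc] at h
    linarith
  obtain ⟨p0, hp0, hp02, hp0n, hp0E⟩ := hpo' hE1c
  set P : ℝ := C1 * (n / L) with hP
  have hP0 : 0 < P := by positivity
  set Gd := Icc 1 n \ E1 with hGd
  have hGd1 : ∀ b ∈ Gd, b ∈ Icc 1 n ∧ b ∉ E1 := fun b hb => mem_sdiff.1 hb
  have hN2s : ∀ b, N2 n b ⊆ Icc 1 n := fun b => filter_subset _ _
  have hE2n : 2 * (1 + 2 * (E2.card : ℝ)) ≤ c * n := by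
    have h1 : (n : ℝ) / L ^ 2 ≤ c / 64 * n := by
      rw [div_le_iff₀ (by positivity)]
      have h3 : 64 ≤ c * L ^ 2 := by nlinarith
      nlinarith
    nlinarith
  have hex : ∀ q : ℕ × ℕ, q ∈ (Gd ×ˢ Gd).filter (fun q => q.1 % 2 = q.2 % 2) → ∃ u, u ∈ Icc 1 n ∧
      c ^ 2 * c3 / (4 * C1) * (n / L) ≤ (JJ n u (N2 n q.1)).card ∧ c ^ 2 * c3 / (4 * C1) * (n / L) ≤ (JJ n u (N2 n q.2)).card := by
    intro q hq
    rw [mem_filter, mem_product] at hq
    obtain ⟨⟨hq1, hq2⟩, hpar⟩ := hq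
    obtain ⟨a1, a2⟩ := hGd1 _ hq1
    obtain ⟨b1, b2⟩ := hGd1 _ hq2
    have hX := hE1p q.1 a1 a2
    have hZ := hE1p q.2 b1 b2
    have ha1 := (mem_Icc.1 a1).1
    have hb1 := (mem_Icc.1 b1).1
    obtain ⟨u, hu, hu1, hu2⟩ := exists_u n (by omega) (c3 * (n / L ^ 2)) P (by positivity) hP0 E2 (N2 n q.1) (N2 n q.2)
      hE2p hup' (hN2s _) (hN2s _) (fun x hx z hz => by
        rw [N2_par ha1 hx, N2_par hb1 hz]; exact hpar) (by
        have : (2 * (1 + 2 * (E2.card : ℝ))) ≤ (N2 n q.2).card := hE2n.trans hZ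
        exact_mod_cast this)
    have hT : c ^ 2 * c3 / (2 * C1) * (n / L) ≤ ((N2 n q.1).card : ℝ) * (N2 n q.2).card * (c3 * (n / L ^ 2)) / (2 * n * P) := by
      rw [le_div_iff₀ (by positivity)]
      have h1 : (c * n) * (c * n) ≤ ((N2 n q.1).card : ℝ) * (N2 n q.2).card :=
        mul_le_mul hX hZ (by positivity) (Nat.cast_nonneg _)
      have h2 : (c * n) * (c * n) * (c3 * (n / L ^ 2)) ≤ ((N2 n q.1).card : ℝ) * (N2 n q.2).card * (c3 * (n / L ^ 2)) :=
        mul_le_mul_of_nonneg_right h1 (by positivity)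
      refine le_trans (le_of_eq ?_) h2
      rw [hP]
      field_simp
    have k1 := ee_le n u (N2 n q.1) (mem_Icc.1 hu).2 (hN2s _)
    have k2 := ee_le n u (N2 n q.2) (mem_Icc.1 hu).2 (hN2s _)
    have k1' : ((ee u (N2 n q.1)).card : ℝ) ≤ 2 * (JJ n u (N2 n q.1)).card := by exact_mod_cast k1
    have k2' : ((ee u (N2 n q.2)).card : ℝ) ≤ 2 * (JJ n u (N2 n q.2)).card := by exact_mod_cast k2
    have e : c ^ 2 * c3 / (4 * C1) * (n / L) = (c ^ 2 * c3 / (2 * C1) * (n / L)) / 2 := by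
      field_simp
      norm_num
    refine ⟨u, hu, ?_, ?_⟩
    · rw [e]; linarith
    · rw [e]; linarith
  choose! uu huu using hex
  set PP := (Gd ×ˢ Gd).filter (fun q => q.1 % 2 = q.2 % 2) with hPP
  refine ⟨(Icc 1 n).image (fun x => JJ n x Gd) ∪ (PP.image (fun q => JJ n (uu q) (N2 n q.1)) ∪
    PP.image (fun q => JJ n (uu q) (N2 n q.2))), ?_, ?_, ?_⟩
  · have h1 := card_union_le ((Icc 1 n).image (fun x => JJ n x Gd)) (PP.image (fun q => JJ n (uu q) (N2 n q.1)) ∪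
      PP.image (fun q => JJ n (uu q) (N2 n q.2)))
    have h2 := card_union_le (PP.image (fun q => JJ n (uu q) (N2 n q.1))) (PP.image (fun q => JJ n (uu q) (N2 n q.2)))
    have h3 : ((Icc 1 n).image (fun x => JJ n x Gd)).card ≤ (Icc 1 n).card := card_image_le
    have h4 : (PP.image (fun q => JJ n (uu q) (N2 n q.1))).card ≤ PP.card := card_image_le
    have h5 : (PP.image (fun q => JJ n (uu q) (N2 n q.2))).card ≤ PP.card := card_image_le
    have h8 : PP.card ≤ n * n := by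
      refine (card_filter_le _ _).trans ?_
      rw [card_product]
      have h9 : Gd.card ≤ n := (card_le_card sdiff_subset).trans (by simp)
      exact Nat.mul_le_mul h9 h9
    rw [Nat.card_Icc, Nat.add_sub_cancel] at h3
    have h9 : n ≤ n * n := Nat.le_mul_self n
    have h10 : ((Icc 1 n).image (fun x => JJ n x Gd) ∪ (PP.image (fun q => JJ n (uu q) (N2 n q.1)) ∪
      PP.image (fun q => JJ n (uu q) (N2 n q.2)))).card ≤ 3 * (n * n) := by omega
    have h11 : (((Icc 1 n).image (fun x => JJ n x Gd) ∪ (PP.image (fun q => JJ n (uu q) (N2 n q.1)) ∪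
      PP.image (fun q => JJ n (uu q) (N2 n q.2)))).card : ℝ) ≤ 3 * (n * n) := by exact_mod_cast h10
    rw [sq]
    exact h11
  · intro J hJ
    have hnL : 0 ≤ (n : ℝ) / L := by positivity
    rw [mem_union, mem_union, mem_image, mem_image, mem_image] at hJ
    rcases hJ with ⟨x, hx, rfl⟩ | ⟨q, hq, rfl⟩ | ⟨q, hq, rfl⟩
    · refine ⟨filter_subset _ _, ?_⟩
      refine le_trans (mul_le_mul_of_nonneg_right (min_le_left _ _) hnL) ?_
      exact JJ_big n x L hL8 hLn8 E1 (mem_Icc.1 hx).2 hE1c (hlow' x (mem_Icc.1 hx).2)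
    · exact ⟨filter_subset _ _, le_trans (mul_le_mul_of_nonneg_right (min_le_right _ _) hnL) (huu q hq).2.1⟩
    · exact ⟨filter_subset _ _, le_trans (mul_le_mul_of_nonneg_right (min_le_right _ _) hnL) (huu q hq).2.2⟩
  · intro T hT V G f hadj hV u v
    -- one step to a good vertex
    have one : ∀ x ∈ Icc 1 n, ∃ y ∈ Gd, G.Adj (f x) (f y) ∧ y % 2 ≠ x % 2 := by
      intro x hx
      obtain ⟨j, hj, hjT⟩ := hT (JJ n x Gd) (by
        rw [mem_union, mem_image]; exact Or.inl ⟨x, hx, rfl⟩)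
      unfold JJ at hj
      rw [mem_filter] at hj
      obtain ⟨_, y, hy, hy1, hy2⟩ := hj
      refine ⟨y, hy, hadj x hx y (hGd1 y hy).1 (Or.inr ⟨hy1, j, hjT, hy2⟩), ?_⟩
      unfold Nat.dist at hy2
      omega
    have good : ∀ w : V, ∃ b ∈ Gd, G.edist w (f b) ≤ 1 := by
      intro w
      rcases hV w with ⟨x, hx, rfl⟩ | h
      · obtain ⟨y, hy, hy1, _⟩ := one x hx
        exact ⟨y, hy, (SimpleGraph.edist_eq_one_iff_adj.2 hy1).le⟩
      · refine ⟨p0, mem_sdiff.2 ⟨mem_Icc.2 ⟨hp0.one_le, hp0n⟩, hp0E⟩, ?_⟩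
        exact (SimpleGraph.edist_eq_one_iff_adj.2 (h p0 hp0 hp02 hp0n)).le
    have two : ∀ b ∈ Icc 1 n, ∀ x ∈ N2 n b, G.edist (f b) (f x) ≤ 2 := by
      intro b hb x hx
      unfold N2 at hx
      rw [mem_filter, card_pos] at hx
      obtain ⟨hx1, y, hy⟩ := hx
      unfold Cd at hy
      rw [mem_filter] at hy
      have h1 : G.edist (f b) (f y) ≤ 1 := (SimpleGraph.edist_eq_one_iff_adj.2 (hadj b hb y hy.1 (Or.inl hy.2.1))).le
      have h2 : G.edist (f y) (f x) ≤ 1 := (SimpleGraph.edist_eq_one_iff_adj.2 (hadj y hy.1 x hx1 (Or.inl (R_symm hy.2.2)))).le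
      calc G.edist (f b) (f x) ≤ G.edist (f b) (f y) + G.edist (f y) (f x) := SimpleGraph.edist_triangle
        _ ≤ 1 + 1 := add_le_add h1 h2
        _ = 2 := by norm_num
    have six : ∀ b ∈ Gd, ∀ b' ∈ Gd, b % 2 = b' % 2 → G.edist (f b) (f b') ≤ 6 := by
      intro b hb b' hb' hpar
      have hq : (b, b') ∈ PP := by
        rw [hPP, mem_filter, mem_product]
        exact ⟨⟨hb, hb'⟩, hpar⟩
      obtain ⟨hu0, _, _⟩ := huu (b, b') hq
      obtain ⟨j, hj, hjT⟩ := hT (JJ n (uu (b, b')) (N2 n b)) (by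
        rw [mem_union, mem_union, mem_image, mem_image]
        exact Or.inr (Or.inl ⟨(b, b'), hq, rfl⟩))
      obtain ⟨i, hi, hiT⟩ := hT (JJ n (uu (b, b')) (N2 n b')) (by
        rw [mem_union, mem_union, mem_image, mem_image, mem_image]
        exact Or.inr (Or.inr ⟨(b, b'), hq, rfl⟩))
      unfold JJ at hj hi
      rw [mem_filter] at hj hi
      obtain ⟨_, x, hx, hx1, hx2⟩ := hj
      obtain ⟨_, z, hz, hz1, hz2⟩ := hi
      have t1 := two b (hGd1 b hb).1 x hx
      have t2 := two b' (hGd1 b' hb').1 z hz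
      have s1 : G.edist (f (uu (b, b'))) (f x) ≤ 1 :=
        (SimpleGraph.edist_eq_one_iff_adj.2 (hadj _ hu0 x (hN2s b hx) (Or.inr ⟨hx1, j, hjT, hx2⟩))).le
      have s2 : G.edist (f (uu (b, b'))) (f z) ≤ 1 :=
        (SimpleGraph.edist_eq_one_iff_adj.2 (hadj _ hu0 z (hN2s b' hz) (Or.inr ⟨hz1, i, hiT, hz2⟩))).le
      rw [SimpleGraph.edist_comm] at t2 s1
      calc G.edist (f b) (f b') ≤ G.edist (f b) (f x) + G.edist (f x) (f b') := SimpleGraph.edist_triangle
        _ ≤ G.edist (f b) (f x) + (G.edist (f x) (f (uu (b, b'))) + G.edist (f (uu (b, b'))) (f b')) :=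
            add_le_add le_rfl SimpleGraph.edist_triangle
        _ ≤ G.edist (f b) (f x) + (G.edist (f x) (f (uu (b, b'))) + (G.edist (f (uu (b, b'))) (f z) + G.edist (f z) (f b'))) :=
            add_le_add le_rfl (add_le_add le_rfl SimpleGraph.edist_triangle)
        _ ≤ 2 + (1 + (1 + 2)) := add_le_add t1 (add_le_add s1 (add_le_add s2 t2))
        _ = 6 := by norm_num
    obtain ⟨b, hb, hb1⟩ := good u
    obtain ⟨b', hb', hb1'⟩ := good v
    rw [SimpleGraph.edist_comm] at hb1'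
    by_cases hpar : b % 2 = b' % 2
    · have h6 := six b hb b' hb' hpar
      calc G.edist u v ≤ G.edist u (f b) + G.edist (f b) v := SimpleGraph.edist_triangle
        _ ≤ G.edist u (f b) + (G.edist (f b) (f b') + G.edist (f b') v) := add_le_add le_rfl SimpleGraph.edist_triangle
        _ ≤ 1 + (6 + 1) := add_le_add hb1 (add_le_add h6 hb1')
        _ ≤ 9 := by norm_num
    · obtain ⟨b'', hb'', hadj'', hp''⟩ := one b' (hGd1 b' hb').1
      have h6 := six b hb b'' hb'' (by omega)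
      have h1 : G.edist (f b'') (f b') ≤ 1 := by
        rw [SimpleGraph.edist_comm]
        exact (SimpleGraph.edist_eq_one_iff_adj.2 hadj'').le
      calc G.edist u v ≤ G.edist u (f b) + G.edist (f b) v := SimpleGraph.edist_triangle
        _ ≤ G.edist u (f b) + (G.edist (f b) (f b'') + G.edist (f b'') v) := add_le_add le_rfl SimpleGraph.edist_triangle
        _ ≤ G.edist u (f b) + (G.edist (f b) (f b'') + (G.edist (f b'') (f b') + G.edist (f b') v)) :=
            add_le_add le_rfl (add_le_add le_rfl SimpleGraph.edist_triangle)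
        _ ≤ 1 + (6 + (1 + 1)) := add_le_add hb1 (add_le_add h6 (add_le_add h1 hb1'))
        _ = 9 := by norm_num

end Pool.Agent.Q107.GR
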