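import Pool.Agent.Q143.GG.Deg2
import Pool.Agent.H373R2.T7.Minor

set_option autoImplicit false

/-! Prime pairs with almost every difference, in windows `(x, x + n]`, `x ≤ n`. -/

namespace Pool.Agent.Q107.GR

open Finset
open Pool.Agent.H560R3.GB
open Pool.Agent.W93.GB
open Pool.Agent.Q143.GG (adm_even card_eq_pairs)
open Pool.Agent.H373R2.T7 (singZ Admissible singZ_low tupleCount ev_L' ev_log')

/-- the asymptotic number of prime pairs up to `N`, for all differences up to `2 n` but few -/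
theorem tw_asymp (U : ℕ) : ∃ N₀ : ℕ, ∀ N : ℕ, N₀ ≤ N → ∀ n : ℕ, 1 ≤ n → N ≤ 3 * n → n ≤ 3 * N →
    ∃ E ⊆ Icc 1 n, (E.card : ℝ) ≤ n / Real.log N ^ U ∧ ∀ m ∈ Icc 1 n, m ∉ E → ∃ S : ℝ,
      Filter.Tendsto (fun z => singZ (fun _ : Fin 1 => ((2 * m : ℕ) : ℤ)) z) Filter.atTop (nhds S) ∧
      |tupleCount (fun _ : Fin 1 => ((2 * m : ℕ) : ℤ)) N - S * N| ≤ (N : ℝ) / Real.log N ^ U := by
  classical
  obtain ⟨N₀, h0⟩ := ftuples_full 1 1 6 1 U le_rfl le_rfl
  obtain ⟨N₂, h2⟩ := ev_L' 3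
  refine ⟨N₀ + N₂ + 3, fun N hN n hn hNn hnN => ?_⟩
  have hL := h2 N (by omega)
  set P : ℕ → Prop := fun m => ∃ S : ℝ, Filter.Tendsto (fun z => singZ (fun _ : Fin 1 => ((2 * m : ℕ) : ℤ)) z) Filter.atTop (nhds S) ∧
        |tupleCount (fun _ : Fin 1 => ((2 * m : ℕ) : ℤ)) N - S * N| ≤ (N : ℝ) / Real.log N ^ U with hP
  refine ⟨(Icc 1 n).filter (fun m => ¬ P m), filter_subset _ _, ?_, ?_⟩
  · have h3 := h0 N (by omega) (fun _ => n) (fun _ m => 2 * m) (fun _ => hn)
      (fun _ m hm => by rw [mem_Icc] at hm; omega) (fun _ => by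
        have e : Pool.Agent.H373R2.T7.energy 1 n (fun m => ((2 * m : ℕ) : ℤ)) = n := by
          have := card_eq_pairs n (fun m => 2 * m) (fun a b h => by simp only at h; omega)
          refine Eq.trans ?_ this
          unfold Pool.Agent.H373R2.T7.energy energy
          congr 1
          apply filter_congr
          intro q _
          simp only [Fin.sum_univ_one]
          rw [Nat.cast_inj]
        rw [e]
        simp only [mul_one, pow_one]
        have h5 : (N : ℝ) ≤ 3 * n := by exact_mod_cast hNn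
        have h6 : (0 : ℝ) ≤ n := Nat.cast_nonneg _
        nlinarith)
    have h4 : ((Icc 1 n).filter (fun m => ¬ P m)).card ≤
        ((Fintype.piFinset (fun _ : Fin 1 => Icc 1 n)).filter (fun m : Fin 1 → ℕ =>
        ¬ ∃ S : ℝ, Filter.Tendsto (fun z => singZ (fun i => ((2 * m i : ℕ) : ℤ)) z) Filter.atTop (nhds S) ∧
        |tupleCount (fun i => ((2 * m i : ℕ) : ℤ)) N - S * N| ≤ (N : ℝ) / Real.log N ^ U)).card := by
      apply card_le_card_of_injOn (fun m => (fun _ => m))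
      · intro m hm
        rw [mem_coe, mem_filter] at hm
        rw [mem_coe, mem_filter, Fintype.mem_piFinset]
        exact ⟨fun _ => hm.1, hm.2⟩
      · intro a _ b _ h
        exact congrFun h 0
    have h5 : (((Icc 1 n).filter (fun m => ¬ P m)).card : ℝ) ≤ (∏ _i : Fin 1, (n : ℝ)) / Real.log N ^ U :=
      le_trans (by exact_mod_cast h4) h3
    rwa [Fin.prod_univ_one] at h5
  · intro m hm hmE
    rw [mem_filter, not_and, not_not] at hmE
    exact hmE hm

/-- the primes `p` in `(N1, N2]` with `p + 2 m` prime -/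
def prs (N1 N2 m : ℕ) : Finset ℕ := (Ioc N1 N2).filter (fun p => p.Prime ∧ (p + 2 * m).Prime)

lemma diff_count (n m N1 N2 : ℕ) (hn : 4 ≤ n) (h12 : N1 ≤ N2) (h2 : N2 ≤ 2 * n) (hm : m ≤ n) :
    tupleCount (fun _ : Fin 1 => ((2 * m : ℕ) : ℤ)) N2 - tupleCount (fun _ : Fin 1 => ((2 * m : ℕ) : ℤ)) N1 ≤
      (prs N1 N2 m).card * (4 * Real.log n ^ 2) := by
  classical
  have hn0 : (0 : ℝ) < n := by exact_mod_cast (by omega : 0 < n)
  have hn4 : (4 : ℝ) ≤ n := by exact_mod_cast hn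
  set f : ℕ → ℝ := fun p => Real.log p * Real.log ((p : ℝ) + 2 * m) with hf
  have e : ∀ N, tupleCount (fun _ : Fin 1 => ((2 * m : ℕ) : ℤ)) N =
      ∑ p ∈ (Icc 1 N).filter (fun p => p.Prime ∧ (p + 2 * m).Prime), f p := by
    intro N
    unfold tupleCount
    have e1 : (Icc 1 N).filter (fun p : ℕ => p.Prime ∧ ∀ _i : Fin 1, ((p : ℤ) + ((2 * m : ℕ) : ℤ)).toNat.Prime) =
        (Icc 1 N).filter (fun p => p.Prime ∧ (p + 2 * m).Prime) := by
      apply filter_congr
      intro p _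
      have : ((p : ℤ) + ((2 * m : ℕ) : ℤ)).toNat = p + 2 * m := by omega
      rw [this]
      simp
    rw [e1]
    apply sum_congr rfl
    intro p _
    rw [Fin.prod_univ_one, hf]
    push_cast
    ring_nf
  have hu : (Icc 1 N2).filter (fun p => p.Prime ∧ (p + 2 * m).Prime) =
      (Icc 1 N1).filter (fun p => p.Prime ∧ (p + 2 * m).Prime) ∪ prs N1 N2 m := by
    ext p
    unfold prs
    simp only [mem_filter, mem_union, mem_Icc, mem_Ioc]
    constructor
    · rintro ⟨⟨h1, h3⟩, h4⟩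
      by_cases h : p ≤ N1
      · exact Or.inl ⟨⟨h1, h⟩, h4⟩
      · exact Or.inr ⟨⟨by omega, h3⟩, h4⟩
    · rintro (⟨⟨h1, h3⟩, h4⟩ | ⟨⟨h1, h3⟩, h4⟩)
      · exact ⟨⟨h1, by omega⟩, h4⟩
      · exact ⟨⟨by omega, h3⟩, h4⟩
  have hd : Disjoint ((Icc 1 N1).filter (fun p => p.Prime ∧ (p + 2 * m).Prime)) (prs N1 N2 m) := by
    rw [disjoint_left]
    intro p hp hp'
    unfold prs at hp'
    rw [mem_filter, mem_Icc] at hp
    rw [mem_filter, mem_Ioc] at hp'
    omega
  rw [e, e, hu, sum_union hd, add_sub_cancel_left, ← nsmul_eq_mul]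
  refine sum_le_card_nsmul _ _ _ fun p hp => ?_
  unfold prs at hp
  rw [mem_filter, mem_Ioc] at hp
  have hp1 : (1 : ℝ) ≤ p := by exact_mod_cast hp.2.1.one_le
  have hp2 : (p : ℝ) ≤ 2 * n := by exact_mod_cast (by omega : p ≤ 2 * n)
  have hm' : (m : ℝ) ≤ n := by exact_mod_cast hm
  have hm0 : (0 : ℝ) ≤ m := Nat.cast_nonneg _
  have l2 : Real.log ((n : ℝ) ^ 2) = 2 * Real.log n := by rw [Real.log_pow]; norm_num
  have a1 : Real.log p ≤ 2 * Real.log n := by
    rw [← l2]
    apply Real.log_le_log (by linarith)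
    nlinarith
  have a2 : Real.log ((p : ℝ) + 2 * m) ≤ 2 * Real.log n := by
    rw [← l2]
    apply Real.log_le_log (by linarith)
    nlinarith
  have a3 : 0 ≤ Real.log p := Real.log_nonneg hp1
  have a4 : 0 ≤ Real.log ((p : ℝ) + 2 * m) := Real.log_nonneg (by linarith)
  rw [hf]
  simp only
  nlinarith [mul_le_mul a1 a2 a4 (by linarith)]

/-- prime pairs with almost every difference in every window `(x, x + n]`, `x ≤ n` -/
theorem pairs_window : ∃ c : ℝ, 0 < c ∧ ∀ U : ℕ, ∃ N₀ : ℕ, ∀ n : ℕ, N₀ ≤ n → ∃ E ⊆ Icc 1 n,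
    (E.card : ℝ) ≤ n / Real.log n ^ U ∧ ∀ m ∈ Icc 1 n, m ∉ E → ∀ x ≤ n,
      c * (n / Real.log n ^ 2) ≤ (prs x (x + n) m).card := by
  classical
  obtain ⟨c0, hc0, hlow⟩ := singZ_low 1
  refine ⟨c0 / 24, by positivity, fun U => ?_⟩
  obtain ⟨N₁, h1⟩ := tw_asymp (U + 2)
  obtain ⟨N₂, h2⟩ := ev_L' (2 + 3 * 2 ^ (U + 2) + 48 * 2 ^ (U + 2) / c0)
  refine ⟨2 * N₁ + N₂ + 12, fun n hn => ?_⟩
  set M := n / 2 with hM
  have hn0 : (0 : ℝ) < n := by exact_mod_cast (by omega : 0 < n)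
  have hn12 : (12 : ℝ) ≤ n := by exact_mod_cast (by omega : 12 ≤ n)
  have hL := h2 n (by omega)
  set L := Real.log (n : ℝ) with hLd
  have hpow : (0 : ℝ) < 2 ^ (U + 2) := by positivity
  have hL2 : 2 ≤ L := by
    have : (0 : ℝ) ≤ 48 * 2 ^ (U + 2) / c0 := by positivity
    linarith
  have hL3 : 3 * 2 ^ (U + 2) ≤ L := by
    have : (0 : ℝ) ≤ 48 * 2 ^ (U + 2) / c0 := by positivity
    linarith
  have hL4 : 48 * 2 ^ (U + 2) ≤ c0 * L := by
    have : 48 * 2 ^ (U + 2) / c0 ≤ L := by linarith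
    rw [div_le_iff₀ hc0] at this
    linarith
  have hL0 : 0 < L := by linarith
  have hM3 : (n : ℝ) / 3 ≤ M := by
    have : n ≤ 2 * M + 1 := by omega
    have h : (n : ℝ) ≤ 2 * M + 1 := by exact_mod_cast this
    linarith
  have hlogM : L / 2 ≤ Real.log M := by
    have h5 : √(n : ℝ) ≤ M := by
      refine le_trans ?_ hM3
      rw [Real.sqrt_le_left (by linarith)]
      nlinarith
    have h6 : Real.log (√(n : ℝ)) ≤ Real.log M := Real.log_le_log (by positivity) h5
    rwa [Real.log_sqrt hn0.le] at h6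
  obtain ⟨E1, hE1, hE1c, hE1p⟩ := h1 M (by omega) n (by omega) (by omega) (by omega)
  obtain ⟨E2, hE2, hE2c, hE2p⟩ := h1 n (by omega) n (by omega) (by omega) (by omega)
  obtain ⟨E3, hE3, hE3c, hE3p⟩ := h1 (n + M) (by omega) n (by omega) (by omega) (by omega)
  -- logarithms of the three cut-offs
  have key : ∀ N : ℕ, M ≤ N → 1 / Real.log N ^ (U + 2) ≤ 2 ^ (U + 2) / L ^ (U + 2) := by
    intro N hN
    have h3 : L / 2 ≤ Real.log N := hlogM.trans (Real.log_le_log (by linarith) (by exact_mod_cast hN))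
    have h4 : (L / 2) ^ (U + 2) ≤ Real.log N ^ (U + 2) := pow_le_pow_left₀ (by linarith) h3 _
    rw [div_pow] at h4
    calc 1 / Real.log N ^ (U + 2) ≤ 1 / (L ^ (U + 2) / 2 ^ (U + 2)) :=
          div_le_div_of_nonneg_left zero_le_one (by positivity) h4
      _ = _ := by rw [one_div_div]
  have small : ∀ N : ℕ, M ≤ N → ∀ v : ℝ, 0 ≤ v → v / Real.log N ^ (U + 2) ≤ v * (2 ^ (U + 2) / L ^ (U + 2)) := by
    intro N hN v hv
    have := mul_le_mul_of_nonneg_left (key N hN) hv
    rwa [mul_one_div] at this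
  refine ⟨E1 ∪ E2 ∪ E3, union_subset (union_subset hE1 hE2) hE3, ?_, ?_⟩
  · have hu : ((E1 ∪ E2 ∪ E3).card : ℝ) ≤ E1.card + E2.card + E3.card := by
      have h3 := card_union_le (E1 ∪ E2) E3
      have h4 := card_union_le E1 E2
      exact_mod_cast (by omega : (E1 ∪ E2 ∪ E3).card ≤ E1.card + E2.card + E3.card)
    have b1 := hE1c.trans (small M le_rfl n hn0.le)
    have b2 := hE2c.trans (small n (by omega) n hn0.le)
    have b3 := hE3c.trans (small (n + M) (by omega) n hn0.le)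
    have b4 : (n : ℝ) * (2 ^ (U + 2) / L ^ (U + 2)) * 3 ≤ n / L ^ U := by
      rw [mul_assoc, div_eq_mul_inv (n : ℝ)]
      apply mul_le_mul_of_nonneg_left _ hn0.le
      rw [div_mul_eq_mul_div, div_le_iff₀ (by positivity), pow_add L U 2, ← mul_assoc, inv_mul_cancel₀ (by positivity), one_mul]
      nlinarith
    linarith
  · intro m hm hmE x hx
    rw [mem_union, mem_union, not_or, not_or] at hmE
    obtain ⟨S, hS, hS1⟩ := hE1p m hm hmE.1.1
    obtain ⟨S', hS', hS2⟩ := hE2p m hm hmE.1.2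
    obtain ⟨S'', hS'', hS3⟩ := hE3p m hm hmE.2
    have e1 : S' = S := tendsto_nhds_unique hS' hS
    have e2 : S'' = S := tendsto_nhds_unique hS'' hS
    subst e1 e2
    have hcS : c0 ≤ S'' := ge_of_tendsto' hS (hlow _ (adm_even m))
    rw [mem_Icc] at hm
    have hM2 : (M : ℝ) ≤ n / 2 := by
      have : 2 * M ≤ n := by omega
      have h : (2 : ℝ) * M ≤ n := by exact_mod_cast this
      linarith
    have err : ∀ N : ℕ, M ≤ N → N ≤ 2 * n → (N : ℝ) / Real.log N ^ (U + 2) ≤ c0 * n / 24 := by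
      intro N hN hN2
      have h3 := small N hN N (Nat.cast_nonneg _)
      have h4 : (N : ℝ) ≤ 2 * n := by exact_mod_cast hN2
      have h5 : (2 : ℝ) ^ (U + 2) / L ^ (U + 2) ≤ c0 / 48 := by
        rw [div_le_div_iff₀ (by positivity) (by norm_num)]
        have h6 : L ≤ L ^ (U + 2) := le_self_pow₀ (by linarith) (by omega)
        have h7 : c0 * L ≤ c0 * L ^ (U + 2) := mul_le_mul_of_nonneg_left h6 hc0.le
        linarith
      have h6 : (N : ℝ) * (2 ^ (U + 2) / L ^ (U + 2)) ≤ 2 * n * (c0 / 48) :=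
        mul_le_mul h4 h5 (by positivity) (by positivity)
      linarith
    have main : ∀ N1 N2 : ℕ, M ≤ N1 → N1 ≤ N2 → N2 ≤ 2 * n → (n : ℝ) / 3 ≤ N2 - N1 →
        |tupleCount (fun _ : Fin 1 => ((2 * m : ℕ) : ℤ)) N1 - S'' * N1| ≤ (N1 : ℝ) / Real.log N1 ^ (U + 2) →
        |tupleCount (fun _ : Fin 1 => ((2 * m : ℕ) : ℤ)) N2 - S'' * N2| ≤ (N2 : ℝ) / Real.log N2 ^ (U + 2) →
        c0 / 24 * (n / L ^ 2) ≤ (prs N1 N2 m).card := by
      intro N1 N2 hN1 h12 hN2 hd t1 t2
      have d := diff_count n m N1 N2 (by omega) h12 hN2 hm.2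
      have t1' := (abs_le.1 t1).2
      have t2' := (abs_le.1 t2).1
      have r1 := err N1 hN1 (by omega)
      have r2 := err N2 (by omega) hN2
      have hSd : c0 * (n / 3) ≤ S'' * (N2 - N1) := mul_le_mul hcS hd (by positivity) (by linarith)
      rw [← hLd] at d
      have fin : c0 * n / 6 ≤ (prs N1 N2 m).card * (4 * L ^ 2) := by nlinarith
      have : c0 / 24 * (n / L ^ 2) = (c0 * n / 6) / (4 * L ^ 2) := by
        field_simp
        norm_num
      rw [this, div_le_iff₀ (by positivity)]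
      exact fin
    by_cases hxM : x ≤ M
    · have h3 := main M n le_rfl (by omega) (by omega) (by linarith) hS1 hS2
      refine h3.trans ?_
      have : (prs M n m).card ≤ (prs x (x + n) m).card := by
        apply card_le_card
        unfold prs
        apply filter_subset_filter
        apply Ioc_subset_Ioc hxM (by omega)
      exact_mod_cast this
    · have h3 := main n (n + M) (by omega) (by omega) (by omega) (by push_cast; linarith) hS2 hS3
      refine h3.trans ?_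
      have : (prs n (n + M) m).card ≤ (prs x (x + n) m).card := by
        apply card_le_card
        unfold prs
        apply filter_subset_filter
        apply Ioc_subset_Ioc hx (by omega)
      exact_mod_cast this

end Pool.Agent.Q107.GR
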